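import Pool.Agent.Y775.CD.Main
set_option autoImplicit false

/-!
The condition on the irreducible factors of `X^n - 1`.
-/

namespace Pool.Agent.Y775.CD

open Polynomial

theorem eq_of_monic_irreducible_dvd {K : Type*} [Field K] {p q : K[X]} (hp : p.Monic)
    (hq : q.Monic) (hpi : Irreducible p) (hqi : Irreducible q) (h : p ∣ q) : p = q :=
  eq_of_monic_of_associated hp hq (hpi.associated_of_dvd hqi h)

/-- The condition holds if `K` contains the `n`-th roots of unity, and if the cyclotomic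
polynomials `Φ_d`, `d ∣ n`, are irreducible over `K`. -/
theorem cycCond {K : Type*} [Field K] {n : ℕ} (hn : 0 < n)
    (h : (∃ ζ : K, IsPrimitiveRoot ζ n) ∨ ∀ d, d ∣ n → Irreducible (cyclotomic d K)) :
    CycCond K n := by
  intro p hp hpi hdvd
  rcases h with ⟨ζ, hζ⟩ | h
  · left
    rw [X_pow_sub_one_eq_prod hn hζ] at hdvd
    obtain ⟨a, -, ha⟩ := (Prime.dvd_finset_prod_iff hpi.prime _).1 hdvd
    exact ⟨a, eq_of_monic_irreducible_dvd hp (monic_X_sub_C a) hpi (irreducible_X_sub_C a) ha⟩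
  · right
    rw [← prod_cyclotomic_eq_X_pow_sub_one hn K] at hdvd
    obtain ⟨d, hd, hpd⟩ := (Prime.dvd_finset_prod_iff hpi.prime _).1 hdvd
    have hd' := Nat.dvd_of_mem_divisors hd
    exact ⟨d, hd', eq_of_monic_irreducible_dvd hp (cyclotomic.monic d K) hpi (h d hd') hpd⟩

end Pool.Agent.Y775.CD
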