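import Pool.Agent.Y775.CD.Match
import Pool.Agent.Y775.CC.Main
set_option autoImplicit false

/-!
The regulators of the symbols `{P_b(x, y), z, w}` on the products of the loops of the curves
`z + 1/z = F(x)` and `w + 1/w = G(y)`.
-/

namespace Pool.Agent.Y775.CD

open Polynomial

open Pool.Agent.TH826.MK (Torus KQ symb pairing circ norm_circ contDiff_circ circ_add_one vf
  Unramified unitPart One Good)

open Pool.Agent.Y775.CC (CRing cc cx cz evC evC_cc evC_cx evC_cz Branches Mm Mm_neg sum_Mm' hfun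
  good_hfun pairing_hfun uu exists_branches exists_radius' uu_one_mem' uu_mem circ_ne_zero uu_ne
  contDiff_branch_uu uu_add_one mkL)

theorem one_circ {R : ℝ} (hR : 0 < R) : One (circ R) (Pool.Agent.TH826.MK.wd R 0) := by
  have h := Pool.Agent.TH826.MK.one_lin hR (b := 0) (by rw [norm_zero]; exact hR.ne)
  simpa using h

theorem main {K : Type*} [Field K] {F G : K[X]} {s : K →+* ℂ} {n : ℕ} (hF : F.Monic)
    (hG : G.Monic) (hFn : F.natDegree = n) (hGn : G.natDegree = n) (hn : 0 < n)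
    (hcF : ∀ x : ℂ, (derivative F).eval₂ s x = 0 → ∀ t : ℝ, |t| ≤ 2 → F.eval₂ s x ≠ t)
    (hcG : ∀ x : ℂ, (derivative G).eval₂ s x = 0 → ∀ t : ℝ, |t| ≤ 2 → G.eval₂ s x ≠ t)
    {ι : Type*} [Fintype ι] {P : ι → K[X][X]} (H : Factorization F G P) :
    ∃ (V : Set ℂ) (φ ψ : Fin n → ℂ → ℂ) (R : ℝ) (γ : Fin n → Torus (CRing F) 1)
      (δ : Fin n → Torus (CRing G) 1) (Γ : Fin n → Fin n → Torus (OpRing F G) 2),
      Branches (F.map s) V φ ∧ Branches (G.map s) V ψ ∧ 1 < R ∧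
      (∀ z : ℂ, 1 ≤ ‖z‖ → ‖z‖ ≤ R → z + z⁻¹ ∈ V) ∧
      (∀ i θ, (∀ a : K, (γ i).e θ (cc F a) = s a) ∧ (γ i).e θ (cx F) = φ i (uu R (θ 0)) ∧
        (γ i).e θ (cz F) = circ R (θ 0)) ∧
      (∀ i θ, (∀ a : K, (δ i).e θ (cc G a) = s a) ∧ (δ i).e θ (cx G) = ψ i (uu 1 (θ 0)) ∧
        (δ i).e θ (cz G) = circ 1 (θ 0)) ∧
      (∀ i j θ, (∀ r, (Γ i j).e θ (toO F G (pr1 F G r)) = (γ i).e (fun _ => θ 0) r) ∧
        ∀ r, (Γ i j).e θ (toO F G (pr2 F G r)) = (δ j).e (fun _ => θ 1) r) ∧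
      ∀ t : ι → ℝ, (∀ i j, ∑ b, t b * (Γ i j).reg (symb (H.ent b)) = 0) ↔
        ∀ b b', t b = t b' := by
  classical
  have hbr : ∀ {F : K[X]}, F.Monic → F.natDegree = n →
      (∀ x : ℂ, (derivative F).eval₂ s x = 0 → ∀ t : ℝ, |t| ≤ 2 → F.eval₂ s x ≠ t) →
      ∃ (V : Set ℂ) (φ : Fin n → ℂ → ℂ), Branches (F.map s) V φ := by
    intro F hF hFn hcF
    refine exists_branches (hF.map s) hn (by rw [hF.natDegree_map, hFn]) ?_
    intro x hx t ht
    rw [eval_map]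
    refine hcF x ?_ t ht
    rw [← eval_map, ← derivative_map]
    exact hx
  obtain ⟨V1, φ, HF1⟩ := hbr hF hFn hcF
  obtain ⟨V2, ψ, HG2⟩ := hbr hG hGn hcG
  set V : Set ℂ := V1 ∩ V2 with hVdef
  have hVo : IsOpen V := HF1.isOpen.inter HG2.isOpen
  have hVc : Convex ℝ V := HF1.convex.inter HG2.convex
  have hVm : ∀ t : ℝ, |t| ≤ 2 → (t : ℂ) ∈ V := fun t ht => ⟨HF1.mem t ht, HG2.mem t ht⟩
  have HF : Branches (F.map s) V φ := branches_mono HF1 Set.inter_subset_left hVo hVc hVm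
  have HG : Branches (G.map s) V ψ := branches_mono HG2 Set.inter_subset_right hVo hVc hVm
  obtain ⟨R, hR, hV⟩ := exists_radius' HF.isOpen HF.mem
  have hR0 : 0 < R := by linarith
  have hevF : ∀ i, ∀ u ∈ V, F.eval₂ s (φ i u) = u := fun i u hu => by
    rw [← eval_map]
    exact HF.eval_branch i hu
  have hevG : ∀ i, ∀ u ∈ V, G.eval₂ s (ψ i u) = u := fun i u hu => by
    rw [← eval_map]
    exact HG.eval_branch i hu
  have hV1 : ∀ t, uu 1 t ∈ V := uu_one_mem' hR.le hV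
  have hVR : ∀ t, uu R t ∈ V := uu_mem hR.le hV
  have hquad : ∀ (r : ℝ), 0 < r → ∀ t (a : ℂ), a = uu r t →
      circ r t ^ 2 - a * circ r t + 1 = 0 := by
    intro r hr t a ha
    have h1 : circ r t * (circ r t)⁻¹ = 1 := mul_inv_cancel₀ (circ_ne_zero hr t)
    have h3 : uu r t = circ r t + (circ r t)⁻¹ := rfl
    rw [ha, h3]
    linear_combination -h1
  have heqF : ∀ i t, circ R t ^ 2 - F.eval₂ s (φ i (uu R t)) * circ R t + 1 = 0 := fun i t =>
    hquad R hR0 t _ (hevF i _ (hVR t))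
  have heqG : ∀ i t, circ 1 t ^ 2 - G.eval₂ s (ψ i (uu 1 t)) * circ 1 t + 1 = 0 := fun i t =>
    hquad 1 one_pos t _ (hevG i _ (hV1 t))
  have hP : ∀ i j a b, PtP F G s (φ i (uu R a)) (circ R a) (ψ j (uu 1 b)) (circ 1 b) := by
    intro i j a b
    refine ⟨heqF i a, heqG j b, ?_⟩
    rw [hevF i _ (hVR a), hevG j _ (hV1 b)]
    exact uu_ne hR a b
  have hX : ∀ i, ContDiff ℝ 2 fun t => φ i (uu R t) := fun i =>
    contDiff_branch_uu HF hR hV i hR.le le_rfl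
  have hY : ∀ i, ContDiff ℝ 2 fun t => ψ i (uu 1 t) := fun i =>
    contDiff_branch_uu HG hR hV i le_rfl hR.le
  have pX : ∀ i t, φ i (uu R (t + 1)) = φ i (uu R t) := fun i t => by rw [uu_add_one]
  have pY : ∀ i t, ψ i (uu 1 (t + 1)) = ψ i (uu 1 t) := fun i t => by rw [uu_add_one]
  set γ : Fin n → Torus (CRing F) 1 := fun i =>
    mkL (hX i) (contDiff_circ R) (pX i) (circ_add_one R) (heqF i) with hγ
  set δ : Fin n → Torus (CRing G) 1 := fun i =>
    mkL (hY i) (contDiff_circ 1) (pY i) (circ_add_one 1) (heqG i) with hδ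
  set Γ : Fin n → Fin n → Torus (OpRing F G) 2 := fun i j =>
    mkT (hX i) (contDiff_circ R) (hY j) (contDiff_circ 1) (pX i) (circ_add_one R) (pY j)
      (circ_add_one 1) (hP i j) with hΓ
  have hfac : ∀ k j, ∃ b : ι, ∀ u ∈ V, ev2 s (φ k u) (ψ j u) (P b) = 0 :=
    fun k j => exists_factor H HF HG k j
  choose σ hσ using hfac
  have hΓe : ∀ i j (θ : Fin 2 → ℝ) (r : PrRing F G), (Γ i j).e θ (toO F G r) =
      evP s (φ i (uu R (θ 0))) (circ R (θ 0)) (ψ j (uu 1 (θ 1))) (circ 1 (θ 1))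
        (hP i j (θ 0) (θ 1)).eq1 (hP i j (θ 0) (θ 1)).eq2 r := fun i j θ r =>
    (hP i j (θ 0) (θ 1)).ev_toO r
  have hone : ∀ l : Fin 2, One ((![circ R, circ 1] : Fin 2 → ℝ → ℂ) l)
      ((![Pool.Agent.TH826.MK.wd R 0, Pool.Agent.TH826.MK.wd 1 0] : Fin 2 → ℝ) l) := by
    intro l
    fin_cases l
    · exact one_circ hR0
    · exact one_circ one_pos
  have hreg : ∀ (b : ι) (i j : Fin n), (Γ i j).reg (symb (H.ent b)) =
      ∑ k ∈ Finset.univ.filter (fun k => σ k j = b), 4 * Real.pi ^ 2 * Mm φ i k := by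
    intro b i j
    rw [Torus.reg_symb]
    have h1 := Pool.Agent.TH826.MK.pairing_prod (Finset.univ.filter (fun k => σ k j = b))
      (F := fun k => hfun φ R i k) (fun k => good_hfun HF hR hV i k) hone
    have h2 : ∀ k, pairing (Fin.cons (hfun φ R i k) (vf ![circ R, circ 1]) :
        Fin 3 → (Fin 2 → ℝ) → ℂ) = 4 * Real.pi ^ 2 * Mm φ i k := fun k =>
      pairing_hfun HF hR hV i k
    simp only [h2] at h1
    rw [← h1]
    unfold Torus.pair
    congr 1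
    funext l
    refine Fin.cases ?_ (fun l => ?_) l
    · funext θ
      show (Γ i j).e θ (toO F G (fac F G (P b))) = ∏ k ∈ Finset.univ.filter
        (fun k => σ k j = b), hfun φ R i k θ
      rw [hΓe]
      have h3 := map_ev2 (evP s (φ i (uu R (θ 0))) (circ R (θ 0)) (ψ j (uu 1 (θ 1)))
        (circ 1 (θ 1)) (hP i j (θ 0) (θ 1)).eq1 (hP i j (θ 0) (θ 1)).eq2) (sk F G) (px F G)
        (py F G) (P b)
      rw [evP_comp_sk, evP_px, evP_py] at h3
      have h4 : evP s (φ i (uu R (θ 0))) (circ R (θ 0)) (ψ j (uu 1 (θ 1))) (circ 1 (θ 1))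
          (hP i j (θ 0) (θ 1)).eq1 (hP i j (θ 0) (θ 1)).eq2 (fac F G (P b)) =
          ev2 s (φ i (uu R (θ 0))) (ψ j (uu 1 (θ 1))) (P b) := h3
      rw [h4, ev2_eq_prod H HF HG hσ b j (hV1 (θ 1))]
      rfl
    · refine Fin.cases ?_ (fun l => ?_) l
      · funext θ
        show (Γ i j).e θ (toO F G (pz F G)) = circ R (θ 0)
        rw [hΓe, evP_pz]
      · rw [Subsingleton.elim l 0]
        funext θ
        show (Γ i j).e θ (toO F G (pw F G)) = circ 1 (θ 1)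
        rw [hΓe, evP_pw]
  have hpi : (0 : ℝ) < 4 * Real.pi ^ 2 := by positivity
  have hneg : ∀ c : Fin n → ℝ, (∃ i j, c i ≠ c j) →
      ∑ i, ∑ j, c i * c j * (4 * Real.pi ^ 2 * Mm φ i j) < 0 := by
    intro c hc
    have h1 := Mm_neg HF hc
    have h3 : ∑ i, ∑ j, c i * c j * (4 * Real.pi ^ 2 * Mm φ i j) =
        4 * Real.pi ^ 2 * ∑ i, ∑ j, c i * c j * Mm φ i j := by
      rw [Finset.mul_sum]
      refine Finset.sum_congr rfl fun i _ => ?_
      rw [Finset.mul_sum]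
      exact Finset.sum_congr rfl fun j _ => by ring
    rw [h3]
    exact mul_neg_of_pos_of_neg hpi h1
  have hrow : ∀ i, ∑ k, 4 * Real.pi ^ 2 * Mm φ i k = 0 := by
    intro i
    rw [← Finset.mul_sum, sum_Mm' HF, mul_zero]
  refine ⟨V, φ, ψ, R, γ, δ, Γ, HF, HG, hR, hV, fun i θ => ⟨fun a => ?_, ?_, ?_⟩,
    fun i θ => ⟨fun a => ?_, ?_, ?_⟩, fun i j θ => ⟨fun r => ?_, fun r => ?_⟩, fun t => ?_⟩
  · exact evC_cc s _ _ (heqF i (θ 0)) a
  · exact evC_cx s _ _ (heqF i (θ 0))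
  · exact evC_cz s _ _ (heqF i (θ 0))
  · exact evC_cc s _ _ (heqG i (θ 0)) a
  · exact evC_cx s _ _ (heqG i (θ 0))
  · exact evC_cz s _ _ (heqG i (θ 0))
  · rw [hΓe, evP_pr1]
    rfl
  · rw [hΓe, evP_pr2]
    rfl
  · simp only [hreg]
    exact rel_iff hneg hrow ⟨0, hn⟩ (σ := σ)
      (fun b j => exists_branch_factor H HF HG hσ b j) t

end Pool.Agent.Y775.CD
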