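import Pool.Agent.Y775.CD.Unram
set_option autoImplicit false

/-!
The symbol `{P(x, y), z, w}` with `z + 1/z = F(x)`, `w + 1/w = G(y)`, where `P` is a factor of
`F(x) - G(y)`, is unramified: the case distinction.
-/

namespace Pool.Agent.Y775.CD

open scoped WithZero

open Polynomial

open Pool.Agent.TH826.MK (symb unitPart val_one_of_sub_one)

open Pool.Agent.Y775.CC (s_mul0 s_mul1 s_mul2 s_neg0 s_zpow1 s_zpow2 s_inv1 s_self01
  s_self12 s_self02 s_one0 s_one1 s_one2 s_unit val_eval_div val_z_eq_one val_eval_le_one)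

variable {K L : Type*} [Field K] [Field L] {v : Valuation L ℤᵐ⁰}

section one

theorem one_mul_one {a b : L} (ha : v (a - 1) < 1) (hb : v (b - 1) < 1) : v (a * b - 1) < 1 := by
  have e : a * b - 1 = (a - 1) * b + (b - 1) := by ring
  rw [e]
  refine (v.map_add _ _).trans_lt (max_lt ?_ hb)
  rw [map_mul, val_one_of_sub_one hb, mul_one]
  exact ha

theorem one_inv {a : L} (ha : v (a - 1) < 1) : v (a⁻¹ - 1) < 1 := by
  have ha1 := val_one_of_sub_one ha
  have ha0 : a ≠ 0 := by
    rintro rfl
    rw [map_zero] at ha1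
    exact zero_ne_one ha1
  have e : a⁻¹ - 1 = -((a - 1) * a⁻¹) := by
    field_simp
    ring
  rw [e, Valuation.map_neg, map_mul, map_inv₀, ha1, inv_one, mul_one]
  exact ha

/-- Near infinity, `z` is `x^n` or `x^(-n)` times a one-unit. -/
theorem exists_sign {P : L[X]} (hP : P.Monic) (hPv : ∀ i, v (P.coeff i) ≤ 1) {x z : Lˣ}
    (hdeg : 0 < P.natDegree) (hx : 1 < v (x : L)) (hz : (z : L) ^ 2 + 1 = P.eval (x : L) * z) :
    ∃ (u : Lˣ), v ((u : L) - 1) < 1 ∧
      (z = x ^ (P.natDegree : ℤ) * u ∨ z = x ^ (-(P.natDegree : ℤ)) * u) := by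
  have h1 := val_eval_div hP hPv hx
  have h2 := val_one_of_sub_one h1
  have hx0 := x.ne_zero
  have hz0 := z.ne_zero
  have hPx : 1 < v (P.eval (x : L)) := by
    have h3 : v (P.eval (x : L)) = v (x : L) ^ P.natDegree := by
      rw [map_div₀, map_pow] at h2
      exact (div_eq_one_iff_eq (pow_ne_zero _ (zero_lt_one.trans hx).ne')).1 h2
    rw [h3]
    exact one_lt_pow₀ hx (by omega)
  have hPx0 : P.eval (x : L) ≠ 0 := by
    intro h
    rw [h, map_zero] at hPx
    exact absurd hPx (not_lt.2 zero_le_one)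
  set n : ℕ := P.natDegree with hn
  rcases lt_trichotomy (v (z : L)) 1 with hlt | heq | hgt
  · refine ⟨z * x ^ (n : ℤ), ?_, Or.inr ?_⟩
    · have e1 : ((z * x ^ (n : ℤ) : Lˣ) : L) = (P.eval (x : L) / (x : L) ^ n)⁻¹ *
          (1 + (z : L) ^ 2) := by
        rw [Units.val_mul, zpow_natCast, Units.val_pow_eq_pow_val, inv_div, add_comm, hz]
        field_simp
      rw [e1]
      refine one_mul_one (one_inv h1) ?_
      rw [add_sub_cancel_left, map_pow]
      exact pow_lt_one₀ zero_le hlt (by norm_num)
    · rw [zpow_neg, mul_comm z, inv_mul_cancel_left]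
  · exfalso
    have h3 : v ((z : L) ^ 2 + 1) ≤ 1 := by
      refine (v.map_add _ _).trans (max_le ?_ ?_)
      · rw [map_pow, heq, one_pow]
      · rw [map_one]
    rw [hz, map_mul, heq, mul_one] at h3
    exact absurd hPx (not_lt.2 h3)
  · refine ⟨z * x ^ (-(n : ℤ)), ?_, Or.inl ?_⟩
    · have e1 : ((z * x ^ (-(n : ℤ)) : Lˣ) : L) = (P.eval (x : L) / (x : L) ^ n) *
          (1 + ((z : L)⁻¹) ^ 2)⁻¹ := by
        have h4 : (z : L) ^ 2 + 1 ≠ 0 := by
          rw [hz]
          exact mul_ne_zero hPx0 hz0
        have h5 : 1 + ((z : L)⁻¹) ^ 2 = ((z : L) ^ 2 + 1) / (z : L) ^ 2 := by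
          field_simp
        rw [Units.val_mul, zpow_neg, zpow_natCast, Units.val_inv_eq_inv_val,
          Units.val_pow_eq_pow_val, h5, inv_div, hz]
        field_simp
      rw [e1]
      refine one_mul_one h1 (one_inv ?_)
      rw [add_sub_cancel_left, map_pow, map_inv₀]
      exact pow_lt_one₀ zero_le (inv_lt_one_of_one_lt₀ hgt) (by norm_num)
    · rw [zpow_neg, mul_comm z, mul_inv_cancel_left]

/-- Both signs at once: `±{P, z, w} = {P, z^±1, w^±1}`. -/
theorem mem_of_signs {h z w z' w' : Lˣ} (hz : z = z' ∨ z = z'⁻¹) (hw : w = w' ∨ w = w'⁻¹)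
    (hm : symb ![h, z', w'] ∈ unitPart v 3) : symb ![h, z, w] ∈ unitPart v 3 := by
  have hinv2 : ∀ a b c : Lˣ, symb ![a, b, c⁻¹] = - symb ![a, b, c] := by
    intro a b c
    have h1 := s_zpow2 a b c (-1)
    rw [zpow_neg_one] at h1
    rw [h1]
    simp
  rcases hz with rfl | rfl <;> rcases hw with rfl | rfl
  · exact hm
  · rw [hinv2]
    exact Submodule.neg_mem _ hm
  · rw [s_inv1]
    exact Submodule.neg_mem _ hm
  · rw [s_inv1, hinv2, neg_neg]
    exact hm

end one

section main

variable {c : K →+* L}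

/-- The data at a valuation: `P` is a monic factor of `F(x) - G(y)`. -/
theorem factor_mem_unitPart {n : ℕ} (hn : 0 < n) (hK : CycCond K n) {F G : K[X]} (hF : F.Monic)
    (hG : G.Monic) (hFn : F.natDegree = n) (hGn : G.natDegree = n)
    (hFv : ∀ i, v (c (F.coeff i)) ≤ 1) (hGv : ∀ i, v (c (G.coeff i)) ≤ 1) {P Q : K[X][X]}
    (hP : P.Monic) (hPQ : P * Q = diffP F G) (hPv : Int2 v c P) (hQv : Int2 v c Q) {x y : L}
    {z w h : Lˣ} (hh : (h : L) = ev2 c x y P) (hz : (z : L) ^ 2 + 1 = F.eval₂ c x * z)
    (hw : (w : L) ^ 2 + 1 = G.eval₂ c y * w) : symb ![h, z, w] ∈ unitPart v 3 := by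
  obtain ⟨g, g', hT, hT', hgg⟩ := topForm_of_mul_eq hn hF hG hFn hGn hP hPQ
  set k := P.natDegree with hk
  have hFm : (F.map c).Monic := hF.map c
  have hGm : (G.map c).Monic := hG.map c
  have hFmd : (F.map c).natDegree = n := by rw [hF.natDegree_map, hFn]
  have hGmd : (G.map c).natDegree = n := by rw [hG.natDegree_map, hGn]
  have hFmv : ∀ i, v ((F.map c).coeff i) ≤ 1 := fun i => by rw [coeff_map]; exact hFv i
  have hGmv : ∀ i, v ((G.map c).coeff i) ≤ 1 := fun i => by rw [coeff_map]; exact hGv i
  have hz' : (z : L) ^ 2 + 1 = (F.map c).eval x * z := by rw [eval_map]; exact hz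
  have hw' : (w : L) ^ 2 + 1 = (G.map c).eval y * w := by rw [eval_map]; exact hw
  have hg_int : ∀ i, v (c (g.coeff i)) ≤ 1 := by
    intro i
    rw [← hT.top, Phi_coeff_coeff]
    split_ifs with hji
    · exact hPv _ _
    · rw [map_zero, map_zero]
      exact zero_le_one
  have hg'_int : ∀ i, v (c (g'.coeff i)) ≤ 1 := by
    intro i
    rw [← hT'.top, Phi_coeff_coeff]
    split_ifs with hji
    · exact hQv _ _
    · rw [map_zero, map_zero]
      exact zero_le_one
  have hunit : ∀ {a : L}, 1 < v a → ∃ a' : Lˣ, (a' : L) = a := by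
    intro a ha
    have ha0 : a ≠ 0 := by
      rintro rfl
      rw [map_zero] at ha
      exact absurd ha (not_lt.2 zero_le_one)
    exact ⟨Units.mk0 a ha0, rfl⟩
  by_cases hA : 1 < v x ∧ v y < v x
  · -- `x` dominates
    obtain ⟨hx, hxy⟩ := hA
    obtain ⟨x', rfl⟩ := hunit hx
    have h1 := val_div_of_lt hT hPv hx hxy
    obtain ⟨u, hu, hzu⟩ := exists_sign hFm hFmv (by rw [hFmd]; exact hn) hx hz'
    have e1 : h = x' ^ (k : ℤ) * (h * x' ^ (-(k : ℤ))) := by
      rw [zpow_neg, mul_comm h, mul_inv_cancel_left]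
    have hu1 : v (((h * x' ^ (-(k : ℤ)) : Lˣ) : L) - 1) < 1 := by
      rw [Units.val_mul, zpow_neg, zpow_natCast, Units.val_inv_eq_inv_val,
        Units.val_pow_eq_pow_val, hh, ← div_eq_mul_inv]
      exact h1
    have hz0 : ∃ m : ℤ, z = x' ^ m * u := by
      rcases hzu with h | h
      · exact ⟨_, h⟩
      · exact ⟨_, h⟩
    obtain ⟨m, hm⟩ := hz0
    rw [e1, s_mul0, s_zpow0]
    refine Submodule.add_mem _ (Submodule.smul_mem _ _ ?_) (s_one0 v hu1)
    rw [hm, s_mul1, s_zpow1, s_self01, smul_zero, zero_add]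
    exact s_one1 v hu
  by_cases hB : 1 < v y
  · -- `v x ≤ v y`
    have hxy : v x ≤ v y := by
      by_contra hcon
      push Not at hcon
      exact hA ⟨hB.trans hcon, hcon⟩
    obtain ⟨y', rfl⟩ := hunit hB
    have h1 := val_div_of_le hT hPv hB hxy
    have h1' := val_div_of_le hT' hQv hB hxy
    obtain ⟨t, ht, hwt⟩ := exists_sign hGm hGmv (by rw [hGmd]; exact hn) hB hw'
    rcases hxy.lt_or_eq with hlt | heq
    · -- `y` dominates
      have hr : v (x / y') < 1 := by
        rw [map_div₀, div_lt_one₀ (zero_lt_one.trans hB)]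
        exact hlt
      set c0 : L := c (g.coeff 0) with hc0
      have hc0p : c0 ^ (2 * n) = 1 := by
        rw [hc0, ← map_pow, coeff_zero_pow hK hn k g hT.natDegree_g hT.monic_g (Dvd.intro _ hgg),
          map_one]
      have hc00 : c0 ≠ 0 := by
        intro h0
        rw [h0, zero_pow (by omega)] at hc0p
        exact zero_ne_one hc0p
      have hc0v : v c0 = 1 := by
        have h2 := congrArg v hc0p
        rw [map_pow, map_one] at h2
        exact (pow_eq_one_iff_of_nonneg zero_le (by omega)).1 h2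
      have hgr : v (g.eval₂ c (x / y') - c0) < 1 := by
        have e2 : g.eval₂ c (x / y') - c0 = ∑ i ∈ Finset.range k,
            c (g.coeff (i + 1)) * (x / y') ^ (i + 1) := by
          rw [Polynomial.eval₂_eq_sum_range, hT.natDegree_g, Finset.sum_range_succ', pow_zero,
            mul_one, add_sub_cancel_right]
        rw [e2]
        refine Valuation.map_sum_lt v one_ne_zero fun i _ => ?_
        rw [map_mul, map_pow]
        calc v (c (g.coeff (i + 1))) * v (x / y') ^ (i + 1) ≤ 1 * v (x / y') ^ (i + 1) :=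
              mul_le_mul' (hg_int _) le_rfl
          _ = v (x / y') ^ (i + 1) := one_mul _
          _ < 1 := pow_lt_one₀ zero_le hr (by omega)
      have hu1 : v ((h : L) / (y' : L) ^ k / c0 - 1) < 1 := by
        have e2 : (h : L) / (y' : L) ^ k / c0 - 1 = (((h : L) / (y' : L) ^ k -
            g.eval₂ c (x / y')) + (g.eval₂ c (x / y') - c0)) / c0 := by
          field_simp
          ring
        rw [e2, map_div₀, hc0v, div_one]
        refine (v.map_add _ _).trans_lt (max_lt ?_ hgr)
        rw [hh]
        exact h1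
      set cu : Lˣ := Units.mk0 c0 hc00 with hcu
      have hcu1 : cu ^ (2 * n) = 1 := by
        apply Units.ext
        rw [Units.val_pow_eq_pow_val, hcu, Units.val_mk0, hc0p]
        rfl
      have e1 : h = (y' ^ (k : ℤ) * cu) * (h * y' ^ (-(k : ℤ)) * cu⁻¹) := by
        rw [zpow_neg]
        apply Units.ext
        simp only [Units.val_mul, Units.val_inv_eq_inv_val, zpow_natCast, Units.val_pow_eq_pow_val]
        have := y'.ne_zero
        have := cu.ne_zero
        field_simp
      have hu2 : v (((h * y' ^ (-(k : ℤ)) * cu⁻¹ : Lˣ) : L) - 1) < 1 := by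
        rw [Units.val_mul, Units.val_mul, zpow_neg, zpow_natCast, Units.val_inv_eq_inv_val,
          Units.val_pow_eq_pow_val, ← div_eq_mul_inv, Units.val_inv_eq_inv_val, ← div_eq_mul_inv,
          hcu, Units.val_mk0]
        exact hu1
      obtain ⟨m, hm⟩ : ∃ m : ℤ, w = y' ^ m * t := by
        rcases hwt with h | h
        · exact ⟨_, h⟩
        · exact ⟨_, h⟩
      rw [e1, s_mul0, s_mul0, s_zpow0]
      refine Submodule.add_mem _ (Submodule.add_mem _ (Submodule.smul_mem _ _ ?_) ?_)
        (s_one0 v hu2)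
      · rw [hm, s_mul2, s_zpow2, s_self02, smul_zero, zero_add]
        exact s_one2 v ht
      · rw [s_tors0 (by omega) hcu1]
        exact Submodule.zero_mem _
    · -- `x / y` is a unit
      have hx : 1 < v x := by rw [heq]; exact hB
      obtain ⟨x', rfl⟩ := hunit hx
      obtain ⟨u, hu, hzu⟩ := exists_sign hFm hFmv (by rw [hFmd]; exact hn) hx hz'
      rw [hFmd] at hzu
      rw [hGmd] at hwt
      have hx0 := x'.ne_zero
      have hy0 := y'.ne_zero
      set r : Lˣ := x' / y' with hr
      have hrv : v (r : L) = 1 := by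
        rw [hr, Units.val_div_eq_div_val, map_div₀, heq]
        exact div_self (zero_lt_one.trans hB).ne'
      -- reduce to the large branches
      have hui : v (((u⁻¹ : Lˣ) : L) - 1) < 1 := by
        rw [Units.val_inv_eq_inv_val]
        exact one_inv hu
      have hti : v (((t⁻¹ : Lˣ) : L) - 1) < 1 := by
        rw [Units.val_inv_eq_inv_val]
        exact one_inv ht
      have hzz : ∃ u' : Lˣ, v ((u' : L) - 1) < 1 ∧ (z = x' ^ (n : ℤ) * u' ∨
          z = (x' ^ (n : ℤ) * u')⁻¹) := by
        rcases hzu with h | h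
        · exact ⟨u, hu, Or.inl h⟩
        · refine ⟨u⁻¹, hui, Or.inr ?_⟩
          rw [h, mul_inv, inv_inv, zpow_neg]
      have hww : ∃ t' : Lˣ, v ((t' : L) - 1) < 1 ∧ (w = y' ^ (n : ℤ) * t' ∨
          w = (y' ^ (n : ℤ) * t')⁻¹) := by
        rcases hwt with h | h
        · exact ⟨t, ht, Or.inl h⟩
        · refine ⟨t⁻¹, hti, Or.inr ?_⟩
          rw [h, mul_inv, inv_inv, zpow_neg]
      obtain ⟨u', hu', hzu'⟩ := hzz
      obtain ⟨t', ht', hwt'⟩ := hww
      refine mem_of_signs hzu' hwt' ?_
      by_cases hD : v ((r : L) ^ n - 1) < 1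
      · -- `z / w` is a one-unit
        have e1 : x' ^ (n : ℤ) * u' = (y' ^ (n : ℤ) * t') * (r ^ n * (u' * t'⁻¹)) := by
          have e2 : x' ^ (n : ℤ) = y' ^ (n : ℤ) * r ^ n := by
            rw [hr, div_pow, zpow_natCast, zpow_natCast, mul_div_cancel]
          rw [e2]
          have e3 : t' * t'⁻¹ = 1 := mul_inv_cancel t'
          calc y' ^ (n : ℤ) * r ^ n * u' = y' ^ (n : ℤ) * r ^ n * u' * (t' * t'⁻¹) := by
                rw [e3, mul_one]
            _ = (y' ^ (n : ℤ) * t') * (r ^ n * (u' * t'⁻¹)) := by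
                simp only [mul_assoc, mul_left_comm, mul_comm]
        have h2 : v (((r ^ n * (u' * t'⁻¹) : Lˣ) : L) - 1) < 1 := by
          have e2 : ((r ^ n * (u' * t'⁻¹) : Lˣ) : L) = (r : L) ^ n * ((u' : L) * (t' : L)⁻¹) := by
            simp only [Units.val_mul, Units.val_pow_eq_pow_val, Units.val_inv_eq_inv_val]
          rw [e2]
          exact one_mul_one hD (one_mul_one hu' (one_inv ht'))
        rw [e1, s_mul1, s_self12, zero_add]
        exact s_one1 v h2
      · -- `r^n - 1` is a unit
        have hr1 : v ((r : L) ^ n - 1) = 1 := by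
          refine le_antisymm ((v.map_sub _ _).trans (max_le ?_ ?_)) (not_lt.1 hD)
          · rw [map_pow, hrv, one_pow]
          · rw [map_one]
        have hrn : (r : L) ^ n ≠ 1 := by
          intro h0
          rw [h0, sub_self, map_zero] at hr1
          exact zero_ne_one hr1
        have hrr : (x' : L) / y' = (r : L) := by
          rw [hr, Units.val_div_eq_div_val]
        have hprod : g.eval₂ c (r : L) * g'.eval₂ c (r : L) = (r : L) ^ n - 1 := by
          rw [← eval₂_mul, hgg]
          simp
        have hge : v (g.eval₂ c (r : L)) ≤ 1 := by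
          have := val_eval₂_le (v := v) (c := c) hg_int (le_refl _) (le_refl (1 : ℤᵐ⁰)) hrv.le
          rwa [one_pow] at this
        have hge' : v (g'.eval₂ c (r : L)) ≤ 1 := by
          have := val_eval₂_le (v := v) (c := c) hg'_int (le_refl _) (le_refl (1 : ℤᵐ⁰)) hrv.le
          rwa [one_pow] at this
        have hg1 : v (g.eval₂ c (r : L)) = 1 := by
          refine le_antisymm hge ?_
          have h2 := congrArg v hprod
          rw [map_mul, hr1] at h2
          calc (1 : ℤᵐ⁰) = v (g.eval₂ c (r : L)) * v (g'.eval₂ c (r : L)) := h2.symm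
            _ ≤ v (g.eval₂ c (r : L)) * 1 := mul_le_mul' le_rfl hge'
            _ = v (g.eval₂ c (r : L)) := mul_one _
        have hg0 : g.eval₂ c (r : L) ≠ 0 := by
          intro h0
          rw [h0, map_zero] at hg1
          exact zero_ne_one hg1
        set gu : Lˣ := Units.mk0 _ hg0 with hgu
        have hsymb : symb ![gu, r, y'] = 0 :=
          s_factor c hK hn hrn y' k g hT.natDegree_g hT.monic_g (Dvd.intro _ hgg) gu rfl
        have hu1 : v (((h * y' ^ (-(k : ℤ)) * gu⁻¹ : Lˣ) : L) - 1) < 1 := by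
          have e2 : (((h * y' ^ (-(k : ℤ)) * gu⁻¹ : Lˣ) : L) - 1) =
              ((h : L) / (y' : L) ^ k - g.eval₂ c (r : L)) / g.eval₂ c (r : L) := by
            rw [Units.val_mul, Units.val_mul, zpow_neg, zpow_natCast, Units.val_inv_eq_inv_val,
              Units.val_pow_eq_pow_val, ← div_eq_mul_inv, Units.val_inv_eq_inv_val,
              ← div_eq_mul_inv, hgu, Units.val_mk0]
            rw [sub_div, div_self hg0]
          rw [e2, map_div₀, hg1, div_one, hh, ← hrr]
          exact h1
        have e1 : h = (y' ^ (k : ℤ) * gu) * (h * y' ^ (-(k : ℤ)) * gu⁻¹) := by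
          rw [zpow_neg]
          apply Units.ext
          simp only [Units.val_mul, Units.val_inv_eq_inv_val, zpow_natCast,
            Units.val_pow_eq_pow_val]
          have := gu.ne_zero
          field_simp
        have hxr : x' = r * y' := by rw [hr, div_mul_cancel]
        rw [e1, s_mul0, s_mul0, s_zpow0]
        refine Submodule.add_mem _ (Submodule.add_mem _ (Submodule.smul_mem _ _ ?_) ?_)
          (s_one0 v hu1)
        · rw [s_mul2, s_zpow2, s_self02, smul_zero, zero_add]
          exact s_one2 v ht'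
        · rw [s_mul2, s_zpow2, s_mul1, s_zpow1]
          have hzero : symb ![gu, x', y'] = 0 := by
            rw [hxr, s_mul1, hsymb, s_self12, add_zero]
          rw [hzero, smul_zero, zero_add]
          refine Submodule.add_mem _ (Submodule.smul_mem _ _ (s_one1 v hu')) (s_one2 v ht')
  · -- both finite
    have hy : v y ≤ 1 := not_lt.1 hB
    have hx : v x ≤ 1 := by
      by_contra hcon
      push Not at hcon
      exact hA ⟨hcon, hy.trans_lt hcon⟩
    have hz1 := val_z_eq_one hFmv hx hz'
    have hw1 := val_z_eq_one hGmv hy hw'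
    have hhle : v (h : L) ≤ 1 := by
      rw [hh]
      exact val_ev2_le_one hPv hx hy
    rcases hhle.lt_or_eq with hlt | heq
    · have h1 : v ((F.map c).eval x - (G.map c).eval y) < 1 := by
        have e : (F.map c).eval x - (G.map c).eval y = (h : L) * ev2 c x y Q := by
          rw [hh, ← map_mul, hPQ, ev2_diffP, eval_map, eval_map]
        rw [e, map_mul]
        calc v (h : L) * v (ev2 c x y Q) ≤ v (h : L) * 1 :=
              mul_le_mul' le_rfl (val_ev2_le_one hQv hx hy)
          _ = v (h : L) := mul_one _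
          _ < 1 := hlt
      have h2 : ((z : L) - w) * (z * w - 1) = ((F.map c).eval x - (G.map c).eval y) *
          (z * w) := by
        linear_combination (w : L) * hz' - (z : L) * hw'
      have h3 : v (((z : L) - w) * (z * w - 1)) < 1 := by
        rw [h2, map_mul, map_mul, hz1, hw1, mul_one, mul_one]
        exact h1
      rw [map_mul] at h3
      have h4 : v ((z : L) - w) < 1 ∨ v ((z : L) * w - 1) < 1 := by
        by_contra hcon
        push Not at hcon
        exact absurd h3 (not_lt.2 (one_le_mul hcon.1 hcon.2))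
      rcases h4 with h4 | h4
      · have e : z = w * (z / w) := by rw [mul_div_cancel]
        rw [e, s_mul1, s_self12, zero_add]
        refine s_one1 v ?_
        have e2 : ((z / w : Lˣ) : L) - 1 = ((z : L) - w) / w := by
          rw [Units.val_div_eq_div_val]
          have := w.ne_zero
          field_simp
        rw [e2, map_div₀, hw1, div_one]
        exact h4
      · have e : z = w⁻¹ * (z * w) := by
          rw [mul_comm z w, inv_mul_cancel_left]
        rw [e, s_mul1, s_inv1, s_self12, neg_zero, zero_add]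
        exact s_one1 v (by rw [Units.val_mul]; exact h4)
    · exact s_unit v heq hz1 hw1

end main

end Pool.Agent.Y775.CD
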