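import Pool.Agent.Y775.CD.Tor
import Pool.Agent.Y775.CC.Neg
set_option autoImplicit false

/-!
The factors of `F(x) - G(y)` and the branches of the inverses of `F` and `G`: for every branch `ψ`
of the inverse of `G` the branches `φ_k` of the inverse of `F` are distributed on the factors `P_b`,
`P_b(x, ψ(u)) = ∏ (x - φ_k(u))`.
-/

namespace Pool.Agent.Y775.CD

open Polynomial Filter Topology

open Pool.Agent.Y775.CC (Branches Mm Mm_neg sum_Mm' hfun good_hfun pairing_hfun)

section mono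

theorem branches_mono {G : ℂ[X]} {n : ℕ} {V W : Set ℂ} {φ : Fin n → ℂ → ℂ} (H : Branches G V φ)
    (hW : W ⊆ V) (ho : IsOpen W) (hc : Convex ℝ W) (hm : ∀ t : ℝ, |t| ≤ 2 → (t : ℂ) ∈ W) :
    Branches G W φ :=
  ⟨ho, hc, hm, fun i u hu => H.hasDeriv i u (hW hu), fun u hu => H.inj u (hW hu),
    fun u hu => H.prod u (hW hu)⟩

end mono

section fin

/-- A factorization of a product of different linear factors into monic polynomials. -/
theorem split_eq {n : ℕ} {a : Fin n → ℂ} (ha : Function.Injective a) {ι : Type*} [Fintype ι]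
    [DecidableEq ι] {q : ι → ℂ[X]} (hq : ∀ b, (q b).Monic)
    (h : ∏ b, q b = ∏ k, (X - C (a k))) (σ : Fin n → ι) (hσ : ∀ k, (q (σ k)).eval (a k) = 0)
    (b : ι) : q b = ∏ k ∈ Finset.univ.filter (fun k => σ k = b), (X - C (a k)) := by
  set r : ι → ℂ[X] := fun b => ∏ k ∈ Finset.univ.filter (fun k => σ k = b), (X - C (a k)) with hr
  have hrm : ∀ b, (r b).Monic := fun b => monic_prod_of_monic _ _ fun k _ => monic_X_sub_C _
  have hdvd : ∀ b, r b ∣ q b := by
    intro b
    refine Finset.prod_dvd_of_coprime ?_ fun k hk => ?_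
    · intro i _ j _ hij
      exact (pairwise_coprime_X_sub_C ha) hij
    · rw [dvd_iff_isRoot, IsRoot.def]
      have h1 := (Finset.mem_filter.1 hk).2
      rw [← h1]
      exact hσ k
  have hprod : ∏ b, r b = ∏ k, (X - C (a k)) :=
    Finset.prod_fiberwise (s := Finset.univ) (g := σ) (f := fun k => X - C (a k))
  have hle : ∀ b, (r b).natDegree ≤ (q b).natDegree := fun b =>
    natDegree_le_of_dvd (hdvd b) (hq b).ne_zero
  have hsum : ∑ b, (r b).natDegree = ∑ b, (q b).natDegree := by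
    rw [← natDegree_prod_of_monic _ _ fun b _ => hrm b,
      ← natDegree_prod_of_monic _ _ fun b _ => hq b, h, hprod]
  have heq : ∀ b, (r b).natDegree = (q b).natDegree := by
    intro b
    by_contra hne
    have hlt : (r b).natDegree < (q b).natDegree := lt_of_le_of_ne (hle b) hne
    have := Finset.sum_lt_sum (s := Finset.univ) (fun c _ => hle c) ⟨b, Finset.mem_univ b, hlt⟩
    omega
  exact eq_of_monic_of_dvd_of_natDegree_le (hrm b) (hq b) (hdvd b) (heq b).ge

end fin

section match_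

variable {K : Type*} [Field K] {F G : K[X]} {s : K →+* ℂ} {n : ℕ} {V : Set ℂ}
  {φ ψ : Fin n → ℂ → ℂ} {ι : Type*} [Fintype ι] {P : ι → K[X][X]}

/-- The polynomial `P(X, y)`. -/
noncomputable def spec (s : K →+* ℂ) (y : ℂ) (Q : K[X][X]) : ℂ[X] :=
  Q.map (Polynomial.eval₂RingHom s y)

theorem eval_spec (x y : ℂ) (Q : K[X][X]) : (spec s y Q).eval x = ev2 s x y Q := by
  unfold spec
  rw [eval_map]
  rfl

theorem spec_prod (H : Factorization F G P) (HF : Branches (F.map s) V φ)
    (HG : Branches (G.map s) V ψ) (j : Fin n) {u : ℂ} (hu : u ∈ V) :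
    ∏ b, spec s (ψ j u) (P b) = ∏ k, (X - C (φ k u)) := by
  have h1 : ∏ b, spec s (ψ j u) (P b) = spec s (ψ j u) (diffP F G) := by
    rw [← H.prod]
    unfold spec
    rw [Polynomial.map_prod]
  rw [h1, ← HF.prod u hu]
  unfold spec diffP
  rw [Polynomial.map_sub, Polynomial.map_map, Polynomial.map_C]
  have e1 : (Polynomial.eval₂RingHom s (ψ j u)).comp C = s := by
    ext a
    simp
  have e2 : Polynomial.eval₂RingHom s (ψ j u) G = u := by
    rw [coe_eval₂RingHom, ← eval_map]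
    exact HG.eval_branch j hu
  rw [e1, e2]

theorem analyticOnNhd_ev2 (HF : Branches (F.map s) V φ) (HG : Branches (G.map s) V ψ)
    (k j : Fin n) (Q : K[X][X]) :
    AnalyticOnNhd ℂ (fun u => ev2 s (φ k u) (ψ j u) Q) V := by
  have e : (fun u => ev2 s (φ k u) (ψ j u) Q) = fun u => ∑ i ∈ Finset.range (Q.natDegree + 1),
      (∑ l ∈ Finset.range ((Q.coeff i).natDegree + 1), s ((Q.coeff i).coeff l) * ψ j u ^ l) *
        φ k u ^ i := by
    funext u
    rw [ev2_apply, eval₂_eq_sum_range]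
    refine Finset.sum_congr rfl fun i _ => ?_
    rw [coe_eval₂RingHom, eval₂_eq_sum_range]
  rw [e]
  intro u hu
  refine Finset.analyticAt_fun_sum _ fun i _ => ?_
  refine AnalyticAt.mul (Finset.analyticAt_fun_sum _ fun l _ => ?_)
    ((HF.analyticAt k hu).pow i)
  exact analyticAt_const.mul ((HG.analyticAt j hu).pow l)

/-- The factor that vanishes on the pair of branches `φ_k`, `ψ_j`. -/
theorem exists_factor (H : Factorization F G P) (HF : Branches (F.map s) V φ)
    (HG : Branches (G.map s) V ψ) (k j : Fin n) :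
    ∃ b : ι, ∀ u ∈ V, ev2 s (φ k u) (ψ j u) (P b) = 0 := by
  have h0 : (0 : ℂ) ∈ V := by
    have := HF.mem 0 (by norm_num)
    simpa using this
  have hex : ∀ u ∈ V, ∃ b, ev2 s (φ k u) (ψ j u) (P b) = 0 := by
    intro u hu
    have h1 := congrArg (Polynomial.eval (φ k u)) (spec_prod H HF HG j hu)
    rw [eval_prod, eval_prod, Finset.prod_eq_zero (Finset.mem_univ k) (by simp)] at h1
    obtain ⟨b, -, hb⟩ := Finset.prod_eq_zero_iff.1 h1
    exact ⟨b, by rw [← eval_spec]; exact hb⟩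
  have hfreq : ∃ b, ∃ᶠ u in 𝓝[≠] (0 : ℂ), ev2 s (φ k u) (ψ j u) (P b) = 0 := by
    by_contra hcon
    push Not at hcon
    have h1 : ∀ᶠ u in 𝓝[≠] (0 : ℂ), ∀ b, ev2 s (φ k u) (ψ j u) (P b) ≠ 0 := by
      rw [eventually_all]
      intro b
      exact not_frequently.1 (not_frequently.2 (hcon b))
    have h2 : ∀ᶠ u in 𝓝[≠] (0 : ℂ), u ∈ V := nhdsWithin_le_nhds (HF.isOpen.mem_nhds h0)
    obtain ⟨u, hu1, hu2⟩ := (h1.and h2).exists
    obtain ⟨b, hb⟩ := hex u hu2
    exact hu1 b hb
  obtain ⟨b, hb⟩ := hfreq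
  refine ⟨b, fun u hu => ?_⟩
  exact (analyticOnNhd_ev2 HF HG k j (P b)).eqOn_zero_of_preconnected_of_frequently_eq_zero
    HF.convex.isPreconnected h0 hb hu

/-- `P_b(x, ψ_j(u)) = ∏ (x - φ_k(u))` -/
theorem ev2_eq_prod [DecidableEq ι] (H : Factorization F G P) (HF : Branches (F.map s) V φ)
    (HG : Branches (G.map s) V ψ) {σ : Fin n → Fin n → ι}
    (hσ : ∀ k j, ∀ u ∈ V, ev2 s (φ k u) (ψ j u) (P (σ k j)) = 0) (b : ι) (j : Fin n) {u : ℂ}
    (hu : u ∈ V) (x : ℂ) : ev2 s x (ψ j u) (P b) =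
      ∏ k ∈ Finset.univ.filter (fun k => σ k j = b), (x - φ k u) := by
  have h1 := split_eq (HF.inj u hu) (q := fun b => spec s (ψ j u) (P b))
    (fun b => (H.monic b).map _) (spec_prod H HF HG j hu) (fun k => σ k j)
    (fun k => by rw [eval_spec]; exact hσ k j u hu) b
  rw [← eval_spec, h1, eval_prod]
  refine Finset.prod_congr rfl fun k _ => ?_
  simp

/-- Every factor occurs at every branch. -/
theorem exists_branch_factor [DecidableEq ι] (H : Factorization F G P)
    (HF : Branches (F.map s) V φ) (HG : Branches (G.map s) V ψ) {σ : Fin n → Fin n → ι}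
    (hσ : ∀ k j, ∀ u ∈ V, ev2 s (φ k u) (ψ j u) (P (σ k j)) = 0) (b : ι) (j : Fin n) :
    ∃ k, σ k j = b := by
  have h0 : (0 : ℂ) ∈ V := by
    have := HF.mem 0 (by norm_num)
    simpa using this
  have h1 := split_eq (HF.inj 0 h0) (q := fun b => spec s (ψ j 0) (P b))
    (fun b => (H.monic b).map _) (spec_prod H HF HG j h0) (fun k => σ k j)
    (fun k => by rw [eval_spec]; exact hσ k j 0 h0) b
  by_contra hcon
  push Not at hcon
  have h2 : Finset.univ.filter (fun k => σ k j = b) = ∅ :=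
    Finset.filter_eq_empty_iff.2 fun k _ => hcon k
  rw [h2, Finset.prod_empty] at h1
  have h3 : (spec s (ψ j 0) (P b)).natDegree = (P b).natDegree := (H.monic b).natDegree_map _
  rw [h1, natDegree_one] at h3
  exact absurd (H.pos b) (by omega)

end match_

section rank

/-- The relations between the columns. -/
theorem rel_iff {n : ℕ} {M : Fin n → Fin n → ℝ}
    (hneg : ∀ c : Fin n → ℝ, (∃ i j, c i ≠ c j) → ∑ i, ∑ j, c i * c j * M i j < 0)
    (hrow : ∀ i, ∑ k, M i k = 0) (j₀ : Fin n) {ι : Type*} [Fintype ι] [DecidableEq ι]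
    {σ : Fin n → Fin n → ι} (hs : ∀ b j, ∃ k, σ k j = b) (t : ι → ℝ) :
    (∀ i j, ∑ b, t b * ∑ k ∈ Finset.univ.filter (fun k => σ k j = b), M i k = 0) ↔
      ∀ b b', t b = t b' := by
  have hval : ∀ i j, ∑ b, t b * ∑ k ∈ Finset.univ.filter (fun k => σ k j = b), M i k =
      ∑ k, t (σ k j) * M i k := by
    intro i j
    rw [← Finset.sum_fiberwise (s := Finset.univ) (g := fun k => σ k j)
      (f := fun k => t (σ k j) * M i k)]
    refine Finset.sum_congr rfl fun b _ => ?_
    rw [Finset.mul_sum]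
    refine Finset.sum_congr rfl fun k hk => ?_
    rw [(Finset.mem_filter.1 hk).2]
  simp only [hval]
  constructor
  · intro h b b'
    obtain ⟨k, rfl⟩ := hs b j₀
    obtain ⟨k', rfl⟩ := hs b' j₀
    by_contra hne
    have h1 := hneg (fun k => t (σ k j₀)) ⟨k, k', hne⟩
    have h2 : ∑ i, ∑ j, t (σ i j₀) * t (σ j j₀) * M i j = 0 := by
      refine Finset.sum_eq_zero fun i _ => ?_
      have h3 : ∀ j, t (σ i j₀) * t (σ j j₀) * M i j = t (σ i j₀) * (t (σ j j₀) * M i j) :=
        fun j => by ring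
      simp only [h3]
      rw [← Finset.mul_sum, h i j₀, mul_zero]
    rw [h2] at h1
    exact lt_irrefl _ h1
  · intro h i j
    obtain ⟨k₀, -⟩ := hs (σ j₀ j) j
    have h1 : ∀ k, t (σ k j) * M i k = t (σ j₀ j) * M i k := fun k => by rw [h (σ k j) (σ j₀ j)]
    simp only [h1]
    rw [← Finset.mul_sum, hrow, mul_zero]

end rank

end Pool.Agent.Y775.CD
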