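import Pool.Agent.Y775.CC.Ring
set_option autoImplicit false

/-!
The coordinate rings of the product `C × D` of the curves `C : z² - F(x) z + 1 = 0` and
`D : w² - G(y) w + 1 = 0` and of its open part `F(x) ≠ G(y)`.
-/

namespace Pool.Agent.Y775.CD

open Polynomial

open Pool.Agent.Y775.CC (CRing cp cc cx cz cp_eq cz_eq evC evC_cp evC_cc evC_comp evC_cx evC_cz
  hom_ext cp_injective isDomain_CRing cc_injective)

section surface

variable {K : Type*} [Field K] (F G : K[X])

/-- The polynomial `G` over the coordinate ring of the curve `C`. -/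
noncomputable def G1 : (CRing F)[X] := G.map (cc F)

/-- The coordinate ring of `C × D`: the coordinate ring of the curve `w² - G(y) w + 1 = 0` over the
coordinate ring of the curve `z² - F(x) z + 1 = 0`. -/
abbrev PrRing : Type _ := CRing (G1 F G)

/-- The constants. -/
noncomputable def sk : K →+* PrRing F G := (cc (G1 F G)).comp (cc F)

/-- The functions on the first factor. -/
noncomputable def pr1 : CRing F →+* PrRing F G := cc (G1 F G)

theorem G1_eval₂ {S : Type*} [CommRing S] (k : CRing F →+* S) (y : S) :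
    (G1 F G).eval₂ k y = G.eval₂ (k.comp (cc F)) y := by
  unfold G1
  rw [Polynomial.eval₂_map]

theorem sk_eqn : cz (G1 F G) ^ 2 - G.eval₂ (sk F G) (cx (G1 F G)) * cz (G1 F G) + 1 = 0 := by
  have h := cz_eq (G1 F G)
  rw [G1_eval₂] at h
  exact h

/-- The functions on the second factor. -/
noncomputable def pr2 : CRing G →+* PrRing F G :=
  evC (F := G) (sk F G) (cx (G1 F G)) (cz (G1 F G)) (sk_eqn F G)

/-- The coordinate `x` of the first factor. -/
noncomputable def px : PrRing F G := pr1 F G (cx F)

/-- The coordinate `z` of the first factor. -/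
noncomputable def pz : PrRing F G := pr1 F G (cz F)

/-- The coordinate `y` of the second factor. -/
noncomputable def py : PrRing F G := pr2 F G (cx G)

/-- The coordinate `w` of the second factor. -/
noncomputable def pw : PrRing F G := pr2 F G (cz G)

theorem py_eq : py F G = cx (G1 F G) :=
  evC_cx (F := G) (sk F G) (cx (G1 F G)) (cz (G1 F G)) (sk_eqn F G)

theorem pw_eq : pw F G = cz (G1 F G) :=
  evC_cz (F := G) (sk F G) (cx (G1 F G)) (cz (G1 F G)) (sk_eqn F G)

theorem eval_px (p : K[X]) : p.eval₂ (sk F G) (px F G) = pr1 F G (cp F p) := by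
  rw [cp_eq, Polynomial.hom_eval₂]
  rfl

theorem pr2_cc (a : K) : pr2 F G (cc G a) = sk F G a :=
  evC_cc (F := G) (sk F G) (cx (G1 F G)) (cz (G1 F G)) (sk_eqn F G) a

theorem pr2_comp : (pr2 F G).comp (cc G) = sk F G := RingHom.ext fun a => pr2_cc F G a

theorem eval_py (p : K[X]) : p.eval₂ (sk F G) (py F G) = pr2 F G (cp G p) := by
  rw [cp_eq, Polynomial.hom_eval₂, pr2_comp]
  rfl

theorem pz_eqn : pz F G ^ 2 - F.eval₂ (sk F G) (px F G) * pz F G + 1 = 0 := by
  have h := congrArg (pr1 F G) (cz_eq F)
  rw [← cp_eq] at h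
  simp only [map_add, map_sub, map_mul, map_pow, map_one, map_zero] at h
  rw [eval_px]
  exact h

theorem pw_eqn : pw F G ^ 2 - G.eval₂ (sk F G) (py F G) * pw F G + 1 = 0 := by
  have h := congrArg (pr2 F G) (cz_eq G)
  rw [← cp_eq] at h
  simp only [map_add, map_sub, map_mul, map_pow, map_one, map_zero] at h
  rw [eval_py]
  exact h

/-- The function `F(x) - G(y)`. -/
noncomputable def pdel : PrRing F G := F.eval₂ (sk F G) (px F G) - G.eval₂ (sk F G) (py F G)

/-- The coordinate ring of the open part `F(x) ≠ G(y)` of `C × D`. -/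
def OpRing : Type _ := Localization.Away (pdel F G)

noncomputable instance : CommRing (OpRing F G) :=
  OreLocalization.instCommRing (R := PrRing F G) (S := Submonoid.powers (pdel F G))

noncomputable instance : Algebra (PrRing F G) (OpRing F G) :=
  OreLocalization.instAlgebra (R := PrRing F G) (S := Submonoid.powers (pdel F G))
    (R₀ := PrRing F G)

instance : IsLocalization.Away (pdel F G) (OpRing F G) :=
  inferInstanceAs (IsLocalization.Away (pdel F G) (Localization.Away (pdel F G)))

/-- The restriction of functions to the open part. -/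
noncomputable def toO : PrRing F G →+* OpRing F G := algebraMap (PrRing F G) (OpRing F G)

theorem isUnit_pdel : IsUnit (toO F G (pdel F G)) :=
  IsLocalization.Away.algebraMap_isUnit (pdel F G)

theorem isUnit_pz : IsUnit (toO F G (pz F G)) := by
  refine IsUnit.map _ (IsUnit.of_mul_eq_one (F.eval₂ (sk F G) (px F G) - pz F G) ?_)
  linear_combination -(pz_eqn F G)

theorem isUnit_pw : IsUnit (toO F G (pw F G)) := by
  refine IsUnit.map _ (IsUnit.of_mul_eq_one (G.eval₂ (sk F G) (py F G) - pw F G) ?_)
  linear_combination -(pw_eqn F G)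

variable {F G} {S : Type*} [CommRing S]

theorem evP_eqn (k : K →+* S) (x z y w : S) (h : z ^ 2 - F.eval₂ k x * z + 1 = 0)
    (h' : w ^ 2 - G.eval₂ k y * w + 1 = 0) :
    w ^ 2 - (G1 F G).eval₂ (evC k x z h) y * w + 1 = 0 := by
  rw [G1_eval₂, evC_comp]
  exact h'

/-- The homomorphism on the coordinate ring of `C × D` defined by a point of `C` and a point of
`D`. -/
noncomputable def evP (k : K →+* S) (x z y w : S) (h : z ^ 2 - F.eval₂ k x * z + 1 = 0)
    (h' : w ^ 2 - G.eval₂ k y * w + 1 = 0) : PrRing F G →+* S :=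
  evC (F := G1 F G) (evC k x z h) y w (evP_eqn k x z y w h h')

variable (k : K →+* S) (x z y w : S) (h : z ^ 2 - F.eval₂ k x * z + 1 = 0)
    (h' : w ^ 2 - G.eval₂ k y * w + 1 = 0)

theorem evP_pr1 (r : CRing F) : evP k x z y w h h' (pr1 F G r) = evC k x z h r :=
  evC_cc (F := G1 F G) (evC k x z h) y w (evP_eqn k x z y w h h') r

theorem evP_sk (a : K) : evP k x z y w h h' (sk F G a) = k a :=
  (evP_pr1 k x z y w h h' (cc F a)).trans (evC_cc k x z h a)

theorem evP_cx : evP k x z y w h h' (cx (G1 F G)) = y :=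
  evC_cx (F := G1 F G) (evC k x z h) y w (evP_eqn k x z y w h h')

theorem evP_cz : evP k x z y w h h' (cz (G1 F G)) = w :=
  evC_cz (F := G1 F G) (evC k x z h) y w (evP_eqn k x z y w h h')

theorem evP_pr2 (r : CRing G) : evP k x z y w h h' (pr2 F G r) = evC k y w h' r := by
  have e : (evP k x z y w h h').comp (pr2 F G) = evC k y w h' := by
    refine hom_ext (fun a => ?_) ?_ ?_
    · rw [evC_cc, RingHom.comp_apply, pr2_cc, evP_sk]
    · have h1 : pr2 F G (cx G) = cx (G1 F G) := py_eq F G
      rw [evC_cx, RingHom.comp_apply, h1, evP_cx]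
    · have h1 : pr2 F G (cz G) = cz (G1 F G) := pw_eq F G
      rw [evC_cz, RingHom.comp_apply, h1, evP_cz]
  rw [← RingHom.comp_apply, e]

theorem evP_px : evP k x z y w h h' (px F G) = x := by
  unfold px
  rw [evP_pr1, evC_cx]

theorem evP_pz : evP k x z y w h h' (pz F G) = z := by
  unfold pz
  rw [evP_pr1, evC_cz]

theorem evP_py : evP k x z y w h h' (py F G) = y := by
  unfold py
  rw [evP_pr2, evC_cx]

theorem evP_pw : evP k x z y w h h' (pw F G) = w := by
  unfold pw
  rw [evP_pr2, evC_cz]

theorem evP_comp_sk : (evP k x z y w h h').comp (sk F G) = k :=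
  RingHom.ext fun a => evP_sk k x z y w h h' a

theorem evP_pdel : evP k x z y w h h' (pdel F G) = F.eval₂ k x - G.eval₂ k y := by
  unfold pdel
  rw [map_sub, Polynomial.hom_eval₂, Polynomial.hom_eval₂, evP_px, evP_py, evP_comp_sk]

end surface

section poly

variable {K : Type*} [Field K]

/-- The value at `(x, y)` of a polynomial in `x` whose coefficients are polynomials in `y`. -/
noncomputable def ev2 {S : Type*} [CommRing S] (k : K →+* S) (x y : S) : K[X][X] →+* S :=
  Polynomial.eval₂RingHom (Polynomial.eval₂RingHom k y) x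

theorem ev2_apply {S : Type*} [CommRing S] (k : K →+* S) (x y : S) (P : K[X][X]) :
    ev2 k x y P = P.eval₂ (Polynomial.eval₂RingHom k y) x := rfl

theorem map_ev2 {S T : Type*} [CommRing S] [CommRing T] (f : S →+* T) (k : K →+* S) (x y : S)
    (P : K[X][X]) : f (ev2 k x y P) = ev2 (f.comp k) (f x) (f y) P := by
  rw [ev2_apply, ev2_apply, Polynomial.hom_eval₂]
  congr 1
  refine Polynomial.ringHom_ext (fun a => ?_) ?_
  · simp
  · simp

/-- The polynomial `F(x) - G(y)` in `x` over the polynomials in `y`. -/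
noncomputable def diffP (F G : K[X]) : K[X][X] := F.map C - C G

theorem ev2_diffP {S : Type*} [CommRing S] (k : K →+* S) (x y : S) (F G : K[X]) :
    ev2 k x y (diffP F G) = F.eval₂ k x - G.eval₂ k y := by
  have e : (Polynomial.eval₂RingHom k y).comp C = k := by
    ext a
    simp
  rw [ev2_apply]
  unfold diffP
  rw [Polynomial.eval₂_sub, Polynomial.eval₂_map, Polynomial.eval₂_C, e]
  rfl

theorem pdel_eq (F G : K[X]) : pdel F G = ev2 (sk F G) (px F G) (py F G) (diffP F G) := by
  rw [ev2_diffP]
  rfl

end poly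

section domain

variable {K : Type*} [Field K] {F G : K[X]}

theorem natDegree_G1 : (G1 F G).natDegree = G.natDegree :=
  natDegree_map_eq_of_injective (cc_injective F) G

theorem isDomain_PrRing (hF : 0 < F.natDegree) (hG : 0 < G.natDegree) :
    IsDomain (PrRing F G) := by
  have : IsDomain (CRing F) := isDomain_CRing hF
  exact isDomain_CRing (by rw [natDegree_G1]; exact hG)

theorem pdel_ne_zero (hF : 0 < F.natDegree) (hG : 0 < G.natDegree) : pdel F G ≠ 0 := by
  have : IsDomain (CRing F) := isDomain_CRing hF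
  have e : pdel F G = cp (G1 F G) (C (cp F F) - G1 F G) := by
    unfold pdel
    rw [map_sub, eval_px, py_eq]
    congr 1
    rw [cp_eq, G1_eval₂]
    rfl
  rw [e, Ne, map_eq_zero_iff _ (cp_injective (G1 F G)), sub_eq_zero]
  intro h
  have h1 := congrArg natDegree h
  rw [natDegree_C, natDegree_G1] at h1
  omega

end domain

end Pool.Agent.Y775.CD
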