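import Pool.Agent.Y775.CD.Ring
set_option autoImplicit false

/-!
The factors of `F(x) - G(y)`, where `F` and `G` are monic of the same degree `n`: total degree, and
the homogeneous part of top degree, which divides `x^n - y^n`.
-/

namespace Pool.Agent.Y775.CD

open Polynomial

section phi

variable {K : Type*} [Field K]

/-- The substitution `x = T S`, `y = S`. -/
noncomputable def Phi : K[X][X] →+* K[X][X] :=
  Polynomial.eval₂RingHom (Polynomial.mapRingHom C) (C X * X)

theorem Phi_C (q : K[X]) : Phi (C q) = q.map C := by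
  unfold Phi
  rw [coe_eval₂RingHom, eval₂_C, coe_mapRingHom]

theorem Phi_X : Phi (X : K[X][X]) = C X * X := by
  unfold Phi
  rw [coe_eval₂RingHom, eval₂_X]

theorem Phi_coeff_coeff (P : K[X][X]) (N i : ℕ) :
    ((Phi P).coeff N).coeff i = if i ≤ N then (P.coeff i).coeff (N - i) else 0 := by
  induction P using Polynomial.induction_on' with
  | add p q hp hq =>
    rw [map_add, coeff_add, coeff_add, hp, hq]
    split_ifs with h
    · rw [coeff_add, coeff_add]
    · rw [add_zero]
  | monomial m q =>
    rw [← C_mul_X_pow_eq_monomial, map_mul, map_pow, Phi_C, Phi_X, mul_pow, ← C_pow, ← mul_assoc,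
      coeff_mul_X_pow']
    have h1 : ∀ a : ℕ, (q.map C * C (X ^ m) : K[X][X]).coeff a = C (q.coeff a) * X ^ m := by
      intro a
      rw [coeff_mul_C, coeff_map]
    rw [coeff_C_mul_X_pow]
    by_cases hm : m ≤ N
    · rw [if_pos hm, h1, coeff_C_mul_X_pow]
      by_cases hi : i = m
      · subst hi
        rw [if_pos rfl, if_pos hm, if_pos rfl]
      · rw [if_neg hi, if_neg hi]
        split_ifs <;> rfl
    · rw [if_neg hm, coeff_zero]
      by_cases hi : i = m
      · subst hi
        rw [if_neg hm]
      · rw [if_neg hi]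
        split_ifs <;> rfl

theorem diffP_coeff (F G : K[X]) (i j : ℕ) : ((diffP F G).coeff i).coeff j =
    (if j = 0 then F.coeff i else 0) - (if i = 0 then G.coeff j else 0) := by
  unfold diffP
  rw [coeff_sub, coeff_sub, coeff_map, coeff_C, coeff_C]
  congr 1
  split_ifs with h
  · rfl
  · exact coeff_zero j

theorem Phi_diffP_coeff {F G : K[X]} {N : ℕ} (hN : 0 < N) :
    (Phi (diffP F G)).coeff N = C (F.coeff N) * X ^ N - C (G.coeff N) := by
  ext i
  rw [Phi_coeff_coeff, diffP_coeff, coeff_sub, coeff_C_mul_X_pow, coeff_C]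
  by_cases h1 : i ≤ N
  · rw [if_pos h1]
    by_cases h2 : i = N
    · subst h2
      rw [if_pos (Nat.sub_self i), if_pos rfl, if_neg (by omega : ¬ i = 0)]
      rw [if_neg (by omega : ¬ i = 0)]
    · rw [if_neg (by omega : ¬ N - i = 0), if_neg h2]
      by_cases h3 : i = 0
      · subst h3
        rw [if_pos rfl, if_pos rfl, Nat.sub_zero]
      · rw [if_neg h3, if_neg h3]
  · rw [if_neg h1, if_neg (by omega : ¬ i = N), if_neg (by omega : ¬ i = 0), sub_zero]

/-- The data of a factor `P` of `F(x) - G(y)`: total degree at most `k`, the homogeneous part of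
degree `k` is `y^k g(x/y)` with a monic polynomial `g` of degree `k`. -/
structure TopForm (P : K[X][X]) (k : ℕ) (g : K[X]) : Prop where
  natDegree_eq : P.natDegree = k
  monic : P.Monic
  zero : ∀ i j, k < i + j → (P.coeff i).coeff j = 0
  natDegree_le : (Phi P).natDegree ≤ k
  top : (Phi P).coeff k = g
  monic_g : g.Monic
  natDegree_g : g.natDegree = k

theorem natDegree_le_of_topForm {P : K[X][X]} {k : ℕ} {g : K[X]} (h : TopForm P k g) {i : ℕ}
    (hi : i ≤ k) : (P.coeff i).natDegree ≤ k - i := by
  rw [natDegree_le_iff_coeff_eq_zero]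
  intro j hj
  exact h.zero i j (by omega)

theorem natDegree_Phi_ge {P : K[X][X]} (hP : P.Monic) : P.natDegree ≤ (Phi P).natDegree := by
  refine le_natDegree_of_ne_zero fun h => ?_
  have h1 := congrArg (fun q => q.coeff P.natDegree) h
  simp only [coeff_zero] at h1
  rw [Phi_coeff_coeff, if_pos le_rfl, Nat.sub_self, hP.coeff_natDegree, coeff_one_zero] at h1
  exact one_ne_zero h1

theorem topForm_of_natDegree_le {P : K[X][X]} (hP : P.Monic)
    (h : (Phi P).natDegree ≤ P.natDegree) :
    TopForm P P.natDegree ((Phi P).coeff P.natDegree) := by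
  have h0 : ∀ N, P.natDegree < N → (Phi P).coeff N = 0 := fun N hN =>
    coeff_eq_zero_of_natDegree_lt (h.trans_lt hN)
  have hk : ((Phi P).coeff P.natDegree).coeff P.natDegree = 1 := by
    rw [Phi_coeff_coeff, if_pos le_rfl, Nat.sub_self, hP.coeff_natDegree, coeff_one_zero]
  have hle : ((Phi P).coeff P.natDegree).natDegree ≤ P.natDegree := by
    rw [natDegree_le_iff_coeff_eq_zero]
    intro i hi
    rw [Phi_coeff_coeff, if_neg (by omega)]
  have hmon : ((Phi P).coeff P.natDegree).Monic := monic_of_natDegree_le_of_coeff_eq_one _ hle hk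
  refine ⟨rfl, hP, fun i j hij => ?_, h, rfl, hmon, ?_⟩
  · have h1 := congrArg (fun q => q.coeff i) (h0 (i + j) hij)
    simp only [coeff_zero] at h1
    rw [Phi_coeff_coeff, if_pos (by omega), Nat.add_sub_cancel_left] at h1
    exact h1
  · refine le_antisymm hle (le_natDegree_of_ne_zero ?_)
    rw [hk]
    exact one_ne_zero

/-- Two complementary factors of `F(x) - G(y)`. -/
theorem topForm_of_mul_eq {F G : K[X]} {n : ℕ} (hn : 0 < n) (hF : F.Monic) (hG : G.Monic)
    (hFn : F.natDegree = n) (hGn : G.natDegree = n) {P Q : K[X][X]} (hP : P.Monic)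
    (h : P * Q = diffP F G) :
    ∃ g g' : K[X], TopForm P P.natDegree g ∧ TopForm Q Q.natDegree g' ∧ g * g' = X ^ n - 1 := by
  have hdm : (diffP F G).Monic := by
    unfold diffP
    refine (hF.map C).sub_of_left ?_
    rw [degree_map_eq_of_injective C_injective, degree_eq_natDegree hF.ne_zero, hFn]
    exact lt_of_le_of_lt degree_C_le (by exact_mod_cast hn)
  have hdd : (diffP F G).natDegree = n := by
    unfold diffP
    rw [natDegree_sub_C, natDegree_map_eq_of_injective C_injective, hFn]
  have hQ : Q.Monic := hP.of_mul_monic_left (by rw [h]; exact hdm)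
  have hsum : P.natDegree + Q.natDegree = n := by
    rw [← hP.natDegree_mul hQ, h, hdd]
  have hcoeff : ∀ N, n < N → (Phi (diffP F G)).coeff N = 0 := by
    intro N hN
    rw [Phi_diffP_coeff (by omega), coeff_eq_zero_of_natDegree_lt (by omega),
      coeff_eq_zero_of_natDegree_lt (by omega), C_0, zero_mul, sub_zero]
  have hle : (Phi (diffP F G)).natDegree ≤ n := by
    rw [natDegree_le_iff_coeff_eq_zero]
    exact hcoeff
  have hP0 : Phi P ≠ 0 := by
    intro h0
    have h1 := Phi_coeff_coeff P P.natDegree P.natDegree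
    rw [h0, if_pos le_rfl, Nat.sub_self, hP.coeff_natDegree, coeff_one_zero, coeff_zero,
      coeff_zero] at h1
    exact zero_ne_one h1
  have hQ0 : Phi Q ≠ 0 := by
    intro h0
    have h1 := Phi_coeff_coeff Q Q.natDegree Q.natDegree
    rw [h0, if_pos le_rfl, Nat.sub_self, hQ.coeff_natDegree, coeff_one_zero, coeff_zero,
      coeff_zero] at h1
    exact zero_ne_one h1
  have hadd : (Phi P).natDegree + (Phi Q).natDegree ≤ n := by
    rw [← natDegree_mul hP0 hQ0, ← map_mul, h]
    exact hle
  have h1 := natDegree_Phi_ge hP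
  have h2 := natDegree_Phi_ge hQ
  have h3 : (Phi P).natDegree ≤ P.natDegree := by omega
  have h4 : (Phi Q).natDegree ≤ Q.natDegree := by omega
  refine ⟨_, _, topForm_of_natDegree_le hP h3, topForm_of_natDegree_le hQ h4, ?_⟩
  rw [← coeff_mul_add_eq_of_natDegree_le h3 h4, ← map_mul, h, hsum, Phi_diffP_coeff hn]
  have e1 : F.coeff n = 1 := by rw [← hFn]; exact hF.coeff_natDegree
  have e2 : G.coeff n = 1 := by rw [← hGn]; exact hG.coeff_natDegree
  rw [e1, e2, C_1, one_mul]

end phi

section integral

attribute [local instance] Polynomial.algebra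

variable {K : Type*} [Field K]

/-- The coefficients of the monic factors of `F(x) - G(y)` are integral. -/
theorem integral_coeff {F G : K[X]} (hF : F.Monic) (hFn : 0 < F.natDegree)
    (hFi : ∀ i, IsIntegral ℤ (F.coeff i)) (hGi : ∀ i, IsIntegral ℤ (G.coeff i)) {P : K[X][X]}
    (hP : P.Monic) (h : P ∣ diffP F G) (i j : ℕ) : IsIntegral ℤ ((P.coeff i).coeff j) := by
  have hlift : ∀ F : K[X], (∀ i, IsIntegral ℤ (F.coeff i)) → ∃ F' : (NumberField.RingOfIntegers K)[X],
      F'.map (algebraMap (NumberField.RingOfIntegers K) K) = F := by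
    intro F hF
    have h1 : F ∈ lifts (algebraMap (NumberField.RingOfIntegers K) K) := by
      rw [lifts_iff_coeff_lifts]
      intro n
      exact ⟨⟨F.coeff n, hF n⟩, rfl⟩
    exact h1
  obtain ⟨F', rfl⟩ := hlift F hFi
  obtain ⟨G', rfl⟩ := hlift G hGi
  set R := NumberField.RingOfIntegers K with hR
  have hinj : Function.Injective (algebraMap R K) := FaithfulSMul.algebraMap_injective R K
  have hF' : F'.Monic := hinj.monic_map_iff.2 hF
  have hdeg : 0 < F'.natDegree := by
    rwa [natDegree_map_eq_of_injective hinj] at hFn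
  set D' : R[X][X] := F'.map C - C G' with hD'
  have hDm : D'.Monic := by
    refine (hF'.map C).sub_of_left ?_
    rw [degree_map_eq_of_injective C_injective, degree_eq_natDegree hF'.ne_zero]
    exact lt_of_le_of_lt degree_C_le (by exact_mod_cast hdeg)
  have hDmap : D'.map (algebraMap R[X] K[X]) = diffP (F'.map (algebraMap R K))
      (G'.map (algebraMap R K)) := by
    unfold diffP
    rw [hD', Polynomial.map_sub, Polynomial.map_map, Polynomial.map_C, Polynomial.map_map,
      Polynomial.algebraMap_def]
    congr 2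
    ext a
    simp
  have h1 : IsIntegral R[X] (P.coeff i) :=
    isIntegral_coeff_of_dvd D' P hDm hP (by rw [hDmap]; exact h) i
  have h2 : IsIntegral R ((P.coeff i).coeff j) := Polynomial.isIntegral_iff_isIntegral_coeff.1 h1 j
  exact isIntegral_trans _ h2

end integral

end Pool.Agent.Y775.CD
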