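import Pool.Agent.Y775.CD.Main1
import Pool.Agent.Y775.CC.Tor
set_option autoImplicit false

/-!
Tori in the complex points of the open part `F(x) ≠ G(y)` of `C × D`, and the symbols `{P, z, w}`
of the factors `P` of `F(x) - G(y)`.
-/

namespace Pool.Agent.Y775.CD

open Polynomial

open scoped WithZero

open Pool.Agent.TH826.MK (Torus KQ symb pairing circ norm_circ contDiff_circ circ_add_one vf
  Unramified unitPart)

open Pool.Agent.Y775.CC (CRing cc cx cz evC evC_cc evC_cx evC_cz contDiff_evC s_mul0 s_neg0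
  s_self01 s_self12 s_self02 s_mul1 s_diff)

section points

variable {K : Type*} [Field K] {F G : K[X]} {S : Type*} [Field S]

/-- a point of `C` and a point of `D` with different values of `F` and `G` -/
structure PtP (F G : K[X]) (k : K →+* S) (x z y w : S) : Prop where
  eq1 : z ^ 2 - F.eval₂ k x * z + 1 = 0
  eq2 : w ^ 2 - G.eval₂ k y * w + 1 = 0
  ne : F.eval₂ k x ≠ G.eval₂ k y

variable {k : K →+* S} {x z y w : S}

theorem PtP.isUnit (h : PtP F G k x z y w) :
    IsUnit (evP k x z y w h.eq1 h.eq2 (pdel F G)) := by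
  rw [evP_pdel]
  exact (sub_ne_zero.2 h.ne).isUnit

/-- evaluation of the regular functions on the open part of `C × D` -/
noncomputable def PtP.ev (h : PtP F G k x z y w) : OpRing F G →+* S :=
  IsLocalization.Away.lift (pdel F G) h.isUnit

theorem PtP.ev_toO (h : PtP F G k x z y w) (r : PrRing F G) :
    h.ev (toO F G r) = evP k x z y w h.eq1 h.eq2 r :=
  IsLocalization.Away.lift_eq (pdel F G) h.isUnit r

theorem PtP.ev_congr {x' z' y' w' : S} (h : PtP F G k x z y w) (h' : PtP F G k x' z' y' w')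
    (e1 : x = x') (e2 : z = z') (e3 : y = y') (e4 : w = w') : h.ev = h'.ev := by
  subst e1
  subst e2
  subst e3
  subst e4
  rfl

end points

section torus

variable {K : Type*} [Field K] {F G : K[X]} {s : K →+* ℂ}

theorem contDiff_ev {d : ℕ} {x z y w : (Fin d → ℝ) → ℂ}
    (h : ∀ θ, PtP F G s (x θ) (z θ) (y θ) (w θ)) (hx : ContDiff ℝ 2 x) (hz : ContDiff ℝ 2 z)
    (hy : ContDiff ℝ 2 y) (hw : ContDiff ℝ 2 w) (r : OpRing F G) :
    ContDiff ℝ 2 fun θ => (h θ).ev r := by
  have hS : ∀ a : PrRing F G, ContDiff ℝ 2 fun θ =>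
      evP s (x θ) (z θ) (y θ) (w θ) (h θ).eq1 (h θ).eq2 a := by
    intro a
    exact contDiff_evC (G := G1 F G) (k := fun θ => evC s (x θ) (z θ) (h θ).eq1)
      (fun θ => evP_eqn s (x θ) (z θ) (y θ) (w θ) (h θ).eq1 (h θ).eq2)
      (fun b => contDiff_evC (fun θ => (h θ).eq1) (fun a => contDiff_const) hx hz b) hy hw a
  obtain ⟨m, a, ha⟩ := IsLocalization.Away.surj (pdel F G) r
  have e : (fun θ => (h θ).ev r) = fun θ => evP s (x θ) (z θ) (y θ) (w θ) (h θ).eq1 (h θ).eq2 a *
      (evP s (x θ) (z θ) (y θ) (w θ) (h θ).eq1 (h θ).eq2 (pdel F G))⁻¹ ^ m := by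
    funext θ
    have h1 := congrArg (h θ).ev ha
    have h2 : (h θ).ev (r * algebraMap (PrRing F G) (OpRing F G) (pdel F G) ^ m) =
        (h θ).ev r * (h θ).ev (toO F G (pdel F G)) ^ m := by
      rw [map_mul, map_pow]
      rfl
    have h3 : (h θ).ev (algebraMap (PrRing F G) (OpRing F G) a) = (h θ).ev (toO F G a) := rfl
    rw [h2, h3, PtP.ev_toO, PtP.ev_toO] at h1
    have h4 := (h θ).isUnit.ne_zero
    rw [← h1, inv_pow, mul_assoc, mul_inv_cancel₀ (pow_ne_zero _ h4), mul_one]
  rw [e]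
  exact (hS a).mul (((hS (pdel F G)).inv fun θ => (h θ).isUnit.ne_zero).pow m)

/-- A product torus. -/
noncomputable def mkT {X Z Y W : ℝ → ℂ} (hX : ContDiff ℝ 2 X) (hZ : ContDiff ℝ 2 Z)
    (hY : ContDiff ℝ 2 Y) (hW : ContDiff ℝ 2 W) (pX : ∀ t, X (t + 1) = X t)
    (pZ : ∀ t, Z (t + 1) = Z t) (pY : ∀ t, Y (t + 1) = Y t) (pW : ∀ t, W (t + 1) = W t)
    (hP : ∀ a b, PtP F G s (X a) (Z a) (Y b) (W b)) : Torus (OpRing F G) 2 where
  e θ := (hP (θ 0) (θ 1)).ev
  smooth r := contDiff_ev (x := fun θ => X (θ 0)) (z := fun θ => Z (θ 0))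
    (y := fun θ => Y (θ 1)) (w := fun θ => W (θ 1)) (fun θ => hP (θ 0) (θ 1))
    (hX.comp (contDiff_apply ℝ ℝ 0)) (hZ.comp (contDiff_apply ℝ ℝ 0))
    (hY.comp (contDiff_apply ℝ ℝ 1)) (hW.comp (contDiff_apply ℝ ℝ 1)) r
  periodic θ i := by
    have h0 : ∀ (f : ℝ → ℂ), (∀ t, f (t + 1) = f t) → ∀ l : Fin 2,
        f ((θ + Pi.single i 1 : Fin 2 → ℝ) l) = f (θ l) := by
      intro f hf l
      by_cases hl : l = i
      · rw [hl, Pi.add_apply, Pi.single_eq_same, hf]
      · rw [Pi.add_apply, Pi.single_eq_of_ne hl, add_zero]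
    exact PtP.ev_congr _ _ (h0 X pX 0) (h0 Z pZ 0) (h0 Y pY 1) (h0 W pW 1)

end torus

section ent

variable {K : Type*} [Field K] {F G : K[X]} {ι : Type*} [Fintype ι]

/-- `F(x) - G(y) = ∏_b P_b` with polynomials `P_b` that are monic in `x` and not constant. -/
structure Factorization (F G : K[X]) (P : ι → K[X][X]) : Prop where
  monic : ∀ b, (P b).Monic
  pos : ∀ b, 0 < (P b).natDegree
  prod : ∏ b, P b = diffP F G

variable {P : ι → K[X][X]}

theorem Factorization.dvd (H : Factorization F G P) (b : ι) : P b ∣ diffP F G := by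
  rw [← H.prod]
  exact Finset.dvd_prod_of_mem P (Finset.mem_univ b)

/-- The function `P_b(x, y)` on `C × D`. -/
noncomputable def fac (F G : K[X]) (Q : K[X][X]) : PrRing F G :=
  ev2 (sk F G) (px F G) (py F G) Q

theorem Factorization.isUnit (H : Factorization F G P) (b : ι) :
    IsUnit (toO F G (fac F G (P b))) := by
  refine isUnit_of_dvd_unit (map_dvd _ ?_) (isUnit_pdel F G)
  rw [pdel_eq]
  exact map_dvd _ (H.dvd b)

/-- The entries of the symbol `{P_b(x, y), z, w}`. -/
noncomputable def Factorization.ent (H : Factorization F G P) (b : ι) : Fin 3 → (OpRing F G)ˣ :=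
  Fin.cons (H.isUnit b).unit ![(isUnit_pz F G).unit, (isUnit_pw F G).unit]

theorem ev2_toO {L : Type*} [Field L] (f : OpRing F G →+* L) (Q : K[X][X]) :
    f (toO F G (fac F G Q)) = ev2 ((f.comp (toO F G)).comp (sk F G)) (f (toO F G (px F G)))
      (f (toO F G (py F G))) Q := by
  have h := map_ev2 (f.comp (toO F G)) (sk F G) (px F G) (py F G) Q
  exact h

theorem eqn_map {L : Type*} [Field L] (f : OpRing F G →+* L) {H : K[X]} {z y : PrRing F G}
    (h : z ^ 2 - H.eval₂ (sk F G) y * z + 1 = 0) : (f (toO F G z)) ^ 2 + 1 =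
      H.eval₂ ((f.comp (toO F G)).comp (sk F G)) (f (toO F G y)) * f (toO F G z) := by
  have h1 := congrArg (fun r => f (toO F G r)) h
  simp only [map_add, map_sub, map_mul, map_pow, map_one, map_zero] at h1
  have h2 := Polynomial.hom_eval₂ H (sk F G) (f.comp (toO F G)) y
  have h3 : f (toO F G (H.eval₂ (sk F G) y)) =
      H.eval₂ ((f.comp (toO F G)).comp (sk F G)) (f (toO F G y)) := h2
  rw [← h3]
  linear_combination h1

/-- The symbols `{P_b(x, y), z, w}` are unramified at all discrete valuations. -/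
theorem Factorization.mem_unramified {n : ℕ} (hn : 0 < n) (hK : CycCond K n) (hF : F.Monic)
    (hG : G.Monic) (hFn : F.natDegree = n) (hGn : G.natDegree = n)
    (hFi : ∀ i, IsIntegral ℤ (F.coeff i)) (hGi : ∀ i, IsIntegral ℤ (G.coeff i))
    (H : Factorization F G P) {L : Type*} [Field L] (f : OpRing F G →+* L) (b : ι) :
    KQ.map 3 f (symb (H.ent b)) ∈ Unramified L 3 := by
  rw [KQ.map_symb]
  unfold Unramified
  simp only [Submodule.mem_iInf]
  intro v _
  set c : K →+* L := (f.comp (toO F G)).comp (sk F G) with hc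
  have e1 : (fun i => Units.map (f : OpRing F G →* L) (H.ent b i)) =
      ![Units.map (f : OpRing F G →* L) (H.isUnit b).unit,
        Units.map (f : OpRing F G →* L) (isUnit_pz F G).unit,
        Units.map (f : OpRing F G →* L) (isUnit_pw F G).unit] := by
    funext i
    fin_cases i <;> rfl
  rw [e1]
  obtain ⟨Q, hQ⟩ := H.dvd b
  have hint : ∀ R : K[X][X], R.Monic → R ∣ diffP F G → Int2 v c R := fun R hR hd i j =>
    Pool.Agent.TH826.MK.val_le_one_of_integral v (map_isIntegral_int _
      (integral_coeff hF (by omega) hFi hGi hR hd i j))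
  have hdm : (diffP F G).Monic := by
    unfold diffP
    refine (hF.map C).sub_of_left ?_
    rw [degree_map_eq_of_injective C_injective, degree_eq_natDegree hF.ne_zero, hFn]
    exact lt_of_le_of_lt degree_C_le (by exact_mod_cast hn)
  have hQm : Q.Monic := (H.monic b).of_mul_monic_left (by rw [← hQ]; exact hdm)
  refine factor_mem_unitPart (c := c) (x := f (toO F G (px F G))) (y := f (toO F G (py F G)))
    hn hK hF hG hFn hGn (fun i => Pool.Agent.TH826.MK.val_le_one_of_integral v
      (map_isIntegral_int _ (hFi i))) (fun i => Pool.Agent.TH826.MK.val_le_one_of_integral v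
      (map_isIntegral_int _ (hGi i))) (H.monic b) hQ.symm (hint _ (H.monic b) (H.dvd b))
    (hint _ hQm (Dvd.intro_left _ hQ.symm)) (ev2_toO f (P b)) ?_ ?_
  · exact eqn_map f (pz_eqn F G)
  · exact eqn_map f (pw_eqn F G)

/-- `{F(x) - G(y), z, w} = 0` -/
theorem symb_diff_eq_zero {L : Type*} [Field L] {a b : L} {z w h : Lˣ} (hh : (h : L) = a - b)
    (hz : (z : L) ^ 2 + 1 = a * z) (hw : (w : L) ^ 2 + 1 = b * w) : symb ![h, z, w] = 0 := by
  have e : (h : L) * (z * w) = ((z : L) - w) * (z * w - 1) := by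
    rw [hh]
    linear_combination -(w : L) * hz + (z : L) * hw
  have hne : ((z : L) - w) * (z * w - 1) ≠ 0 := by
    rw [← e]
    exact mul_ne_zero h.ne_zero (mul_ne_zero z.ne_zero w.ne_zero)
  have h1 : (z : L) - w ≠ 0 := left_ne_zero_of_mul hne
  have h2 : (z : L) * w - 1 ≠ 0 := right_ne_zero_of_mul hne
  have e1 : h * (z * w) = Units.mk0 _ h1 * Units.mk0 _ h2 := Units.ext (by
    simpa only [Units.val_mul, Units.val_mk0] using e)
  have hA : symb ![Units.mk0 _ h1, z, w] = 0 := s_diff rfl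
  have hB : symb ![Units.mk0 _ h2, z, w] = 0 := by
    have h3 : symb ![-Units.mk0 _ h2, z * w, w] = 0 := by
      refine s_steinberg01 ?_ w
      rw [Units.val_neg, Units.val_mk0, Units.val_mul]
      ring
    rw [s_neg0, s_mul1, s_self12, add_zero] at h3
    exact h3
  have h3 := congrArg (fun t => symb ![t, z, w]) e1
  simp only [s_mul0, hA, hB, s_self01, s_self02, add_zero] at h3
  exact h3

/-- The sum of the symbols of all factors vanishes in the Milnor K-group of every field. -/
theorem Factorization.sum_eq_zero (H : Factorization F G P) {L : Type*} [Field L]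
    (f : OpRing F G →+* L) : ∑ b, KQ.map 3 f (symb (H.ent b)) = 0 := by
  set zu : Lˣ := Units.map (f : OpRing F G →* L) (isUnit_pz F G).unit with hzu
  set wu : Lˣ := Units.map (f : OpRing F G →* L) (isUnit_pw F G).unit with hwu
  have e1 : ∀ b, KQ.map 3 f (symb (H.ent b)) =
      symb ![Units.map (f : OpRing F G →* L) (H.isUnit b).unit, zu, wu] := by
    intro b
    rw [KQ.map_symb]
    congr 1
    funext i
    fin_cases i <;> rfl
  simp only [e1]
  rw [← s_prod0]
  refine symb_diff_eq_zero (a := F.eval₂ ((f.comp (toO F G)).comp (sk F G)) (f (toO F G (px F G))))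
    (b := G.eval₂ ((f.comp (toO F G)).comp (sk F G)) (f (toO F G (py F G)))) ?_
    (eqn_map f (pz_eqn F G)) (eqn_map f (pw_eqn F G))
  rw [← ev2_diffP, ← H.prod, map_prod, Units.coe_prod]
  exact Finset.prod_congr rfl fun b _ => ev2_toO f (P b)

end ent

end Pool.Agent.Y775.CD
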