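import Pool.Agent.Y775.CD.Val
set_option autoImplicit false

/-!
The symbol `{P(x, y), z, w}` with `z + 1/z = F(x)`, `w + 1/w = G(y)`, where `P` is a factor of
`F(x) - G(y)`, is unramified.
-/

namespace Pool.Agent.Y775.CD

open scoped WithZero

open Polynomial

open Pool.Agent.TH826.MK (symb unitPart val_one_of_sub_one symb_update_mul symb_update_zpow
  symb_eq_zero')

open Pool.Agent.TH826.SX (symb_self symb_upd_neg symb_upd_inv symb_upd_one)

open Pool.Agent.Y775.CC (upd0 upd1 upd2 s_mul0 s_mul1 s_mul2 s_neg0 s_zpow1 s_zpow2 s_inv1 s_self01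
  s_self12 s_self02 s_one0 s_one1 s_one2 s_unit val_eval_div val_z_eq_one val_eval_le_one)

variable {K L : Type*} [Field K] [Field L]

section tors

theorem s_zpow0 (a b c : Lˣ) (k : ℤ) : symb ![a ^ k, b, c] = (k : ℚ) • symb ![a, b, c] := by
  have h := symb_update_zpow ![a, b, c] 0 a k
  rwa [upd0, upd0] at h

theorem s_one (b c : Lˣ) : symb ![1, b, c] = 0 := by
  have h := symb_upd_one ![1, b, c] 0
  rwa [upd0] at h

theorem s_tors0 {a : Lˣ} {N : ℕ} (hN : N ≠ 0) (ha : a ^ N = 1) (b c : Lˣ) :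
    symb ![a, b, c] = 0 := by
  have h := s_zpow0 a b c (N : ℤ)
  rw [zpow_natCast, ha, s_one] at h
  have hN' : (((N : ℤ)) : ℚ) ≠ 0 := by exact_mod_cast hN
  exact (smul_eq_zero.1 h.symm).resolve_left hN'

theorem s_swap12 (a b c : Lˣ) : symb ![a, b, c] = - symb ![a, c, b] := by
  have h := s_self12 a (b * c)
  rw [s_mul1, s_mul2, s_mul2, s_self12, s_self12, zero_add, add_zero] at h
  exact eq_neg_of_add_eq_zero_left h

theorem s_tors1 {b : Lˣ} {N : ℕ} (hN : N ≠ 0) (hb : b ^ N = 1) (a c : Lˣ) :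
    symb ![a, b, c] = 0 := by
  have h := s_zpow1 a b c (N : ℤ)
  rw [zpow_natCast, hb] at h
  have h1 : symb ![a, 1, c] = 0 := by
    have h2 := symb_upd_one ![a, 1, c] 1
    rwa [upd1] at h2
  rw [h1] at h
  have hN' : (((N : ℤ)) : ℚ) ≠ 0 := by exact_mod_cast hN
  exact (smul_eq_zero.1 h.symm).resolve_left hN'

theorem s_steinberg01 {a b : Lˣ} (h : (a : L) + b = 1) (c : Lˣ) : symb ![a, b, c] = 0 :=
  symb_eq_zero' ![a, b, c] (i := 0) (j := 1) (by decide) h

theorem s_prod0 {ι : Type*} (s : Finset ι) (f : ι → Lˣ) (b c : Lˣ) :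
    symb ![∏ i ∈ s, f i, b, c] = ∑ i ∈ s, symb ![f i, b, c] := by
  classical
  induction s using Finset.induction_on with
  | empty => rw [Finset.prod_empty, Finset.sum_empty, s_one]
  | insert i s hi ih => rw [Finset.prod_insert hi, Finset.sum_insert hi, s_mul0, ih]

end tors

section cyc

variable (c : K →+* L) {n : ℕ}

/-- `{r^d - 1, r, y} = 0` -/
theorem s_pow_sub_one {r u : Lˣ} {d : ℕ} (hd : d ≠ 0) (hu : (u : L) = (r : L) ^ d - 1) (y : Lˣ) :
    symb ![u, r, y] = 0 := by
  have h1 : symb ![-u, r ^ (d : ℤ), y] = 0 := by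
    refine s_steinberg01 ?_ y
    rw [Units.val_neg, hu, zpow_natCast, Units.val_pow_eq_pow_val]
    ring
  rw [s_neg0, s_zpow1] at h1
  have hd' : (((d : ℤ)) : ℚ) ≠ 0 := by exact_mod_cast hd
  exact (smul_eq_zero.1 h1).resolve_left hd'

/-- `{r - ζ, r, y} = 0` -/
theorem s_sub_root {r u ζ : Lˣ} (hn : n ≠ 0) (hζ : ζ ^ n = 1) (hu : (u : L) = r - ζ) (y : Lˣ) :
    symb ![u, r, y] = 0 := by
  have hζ0 := ζ.ne_zero
  have ht0 : (1 : L) - r / ζ ≠ 0 := by
    intro h0
    apply u.ne_zero
    rw [hu]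
    have h1 : (r : L) / ζ = 1 := by linear_combination -h0
    rw [div_eq_one_iff_eq hζ0] at h1
    rw [h1, sub_self]
  set t : Lˣ := Units.mk0 _ ht0 with ht
  have e1 : u = -(ζ * t) := by
    apply Units.ext
    rw [hu, Units.val_neg, Units.val_mul, ht, Units.val_mk0]
    field_simp
    ring
  have e2 : r = ζ * (r / ζ) := by rw [mul_div_cancel]
  have h1 : symb ![t, r / ζ, y] = 0 := by
    refine s_steinberg01 ?_ y
    rw [ht, Units.val_mk0, Units.val_div_eq_div_val]
    ring
  rw [e1, s_neg0, s_mul0, s_tors0 hn hζ, zero_add]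
  rw [e2, s_mul1, s_tors1 hn hζ, zero_add, h1]

theorem eval₂_cyclotomic (d : ℕ) (x : L) :
    (cyclotomic d K).eval₂ c x = (cyclotomic d L).eval x := by
  rw [← eval_map, map_cyclotomic]

theorem s_cyclotomic {r : Lˣ} (y : Lˣ) : ∀ d : ℕ, 0 < d → (r : L) ^ d ≠ 1 → ∀ u : Lˣ,
    (u : L) = (cyclotomic d L).eval (r : L) → symb ![u, r, y] = 0 := by
  classical
  intro d
  induction d using Nat.strong_induction_on with
  | _ d ih =>
    intro hd hr u hu
    have hprod : ∏ e ∈ d.divisors, (cyclotomic e L).eval (r : L) = (r : L) ^ d - 1 := by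
      rw [← eval_prod, prod_cyclotomic_eq_X_pow_sub_one hd]
      simp
    have hne : ∀ e ∈ d.divisors, (cyclotomic e L).eval (r : L) ≠ 0 := by
      intro e he h0
      rw [Finset.prod_eq_zero he h0] at hprod
      exact hr (sub_eq_zero.1 hprod.symm)
    have hpow : ∀ e ∈ d.divisors, (r : L) ^ e ≠ 1 := by
      intro e he h0
      obtain ⟨k, hk⟩ := Nat.dvd_of_mem_divisors he
      rw [hk, pow_mul, h0, one_pow] at hr
      exact hr rfl
    set f : ℕ → Lˣ := fun e => if h : (cyclotomic e L).eval (r : L) ≠ 0 then Units.mk0 _ h else 1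
      with hf
    have hfv : ∀ e ∈ d.divisors, (f e : L) = (cyclotomic e L).eval (r : L) := by
      intro e he
      rw [hf]
      simp only [dif_pos (hne e he), Units.val_mk0]
    have hfd : f d = u := by
      apply Units.ext
      rw [hfv d (Nat.mem_divisors_self d hd.ne'), hu]
    have h1 : symb ![∏ e ∈ d.divisors, f e, r, y] = 0 := by
      refine s_pow_sub_one hd.ne' ?_ y
      rw [Units.coe_prod, ← hprod]
      exact Finset.prod_congr rfl hfv
    rw [s_prod0, ← Nat.cons_self_properDivisors hd.ne', Finset.sum_cons, hfd] at h1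
    have h2 : ∑ e ∈ d.properDivisors, symb ![f e, r, y] = 0 := by
      refine Finset.sum_eq_zero fun e he => ?_
      have he' := Nat.mem_properDivisors.1 he
      have hed : e ∈ d.divisors := Nat.mem_divisors.2 ⟨he'.1, hd.ne'⟩
      exact ih e he'.2 (Nat.pos_of_mem_divisors hed) (hpow e hed) (f e) (hfv e hed)
    rwa [h2, add_zero] at h1

/-- Every irreducible factor of `X^n - 1` over `K` is linear or a cyclotomic polynomial. -/
def CycCond (K : Type*) [Field K] (n : ℕ) : Prop :=
  ∀ p : K[X], p.Monic → Irreducible p → p ∣ X ^ n - 1 →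
    (∃ a : K, p = X - C a) ∨ ∃ d, d ∣ n ∧ p = cyclotomic d K

theorem root_pow {a : K} (h : X - C a ∣ (X ^ n - 1 : K[X])) : a ^ n = 1 := by
  have h1 := dvd_iff_isRoot.1 h
  rw [IsRoot.def] at h1
  simp only [eval_sub, eval_pow, eval_X, eval_one] at h1
  exact sub_eq_zero.1 h1

/-- The factors of `r^n - 1`. -/
theorem s_factor (hK : CycCond K n) (hn : 0 < n) {r : Lˣ} (hr : (r : L) ^ n ≠ 1) (y : Lˣ) :
    ∀ (k : ℕ) (g : K[X]), g.natDegree = k → g.Monic → g ∣ X ^ n - 1 →
      ∀ u : Lˣ, (u : L) = g.eval₂ c (r : L) → symb ![u, r, y] = 0 := by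
  intro k
  induction k using Nat.strong_induction_on with
  | _ k ih =>
    intro g hgk hg hdvd u hu
    by_cases hk : k = 0
    · have h1 : g = 1 := hg.natDegree_eq_zero.1 (hgk.trans hk)
      have h2 : u = 1 := Units.ext (by rw [hu, h1, eval₂_one]; rfl)
      rw [h2, s_one]
    · have hnu : ¬ IsUnit g := by
        intro h
        have := natDegree_eq_zero_of_isUnit h
        omega
      obtain ⟨p, hp, hpi, q, hq⟩ := exists_monic_irreducible_factor g hnu
      have hqm : q.Monic := hp.of_mul_monic_left (by rw [← hq]; exact hg)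
      have hdeg : k = p.natDegree + q.natDegree := by rw [← hgk, hq, hp.natDegree_mul hqm]
      have hpd : 0 < p.natDegree := hpi.natDegree_pos
      have hpn : p ∣ X ^ n - 1 := (Dvd.intro q hq.symm).trans hdvd
      have hqn : q ∣ X ^ n - 1 := (Dvd.intro_left p hq.symm).trans hdvd
      have hval : (u : L) = p.eval₂ c (r : L) * q.eval₂ c (r : L) := by
        rw [hu, hq, eval₂_mul]
      have hp0 : p.eval₂ c (r : L) ≠ 0 := by
        intro h0
        rw [h0, zero_mul] at hval
        exact u.ne_zero hval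
      have hq0 : q.eval₂ c (r : L) ≠ 0 := by
        intro h0
        rw [h0, mul_zero] at hval
        exact u.ne_zero hval
      have e1 : u = Units.mk0 _ hp0 * Units.mk0 _ hq0 := Units.ext hval
      rw [e1, s_mul0, ih q.natDegree (by omega) q rfl hqm hqn (Units.mk0 _ hq0) rfl, add_zero]
      rcases hK p hp hpi hpn with ⟨a, ha⟩ | ⟨d, hd, hpd'⟩
      · have ha1 : a ^ n = 1 := root_pow (by rw [← ha]; exact hpn)
        have ha0 : c a ≠ 0 := by
          intro h0
          have h1 : c a ^ n = 1 := by rw [← map_pow, ha1, map_one]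
          rw [h0, zero_pow hn.ne'] at h1
          exact zero_ne_one h1
        refine s_sub_root (ζ := Units.mk0 _ ha0) hn.ne' (Units.ext ?_) ?_ y
        · rw [Units.val_pow_eq_pow_val, Units.val_mk0, ← map_pow, ha1, map_one]
          rfl
        · rw [Units.val_mk0, Units.val_mk0, ha]
          simp
      · have hd0 : 0 < d := Nat.pos_of_dvd_of_pos hd hn
        refine s_cyclotomic y d hd0 (fun h0 => ?_) _ ?_
        · obtain ⟨m, hm⟩ := hd
          rw [hm, pow_mul, h0, one_pow] at hr
          exact hr rfl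
        · rw [Units.val_mk0, hpd', eval₂_cyclotomic]

/-- The constant coefficient of a factor of `X^n - 1` is a root of unity. -/
theorem coeff_zero_pow (hK : CycCond K n) (hn : 0 < n) :
    ∀ (k : ℕ) (g : K[X]), g.natDegree = k → g.Monic → g ∣ X ^ n - 1 →
      (g.coeff 0) ^ (2 * n) = 1 := by
  intro k
  induction k using Nat.strong_induction_on with
  | _ k ih =>
    intro g hgk hg hdvd
    by_cases hk : k = 0
    · have h1 : g = 1 := hg.natDegree_eq_zero.1 (hgk.trans hk)
      rw [h1, coeff_one_zero, one_pow]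
    · have hnu : ¬ IsUnit g := by
        intro h
        have := natDegree_eq_zero_of_isUnit h
        omega
      obtain ⟨p, hp, hpi, q, hq⟩ := exists_monic_irreducible_factor g hnu
      have hqm : q.Monic := hp.of_mul_monic_left (by rw [← hq]; exact hg)
      have hdeg : k = p.natDegree + q.natDegree := by rw [← hgk, hq, hp.natDegree_mul hqm]
      have hpd : 0 < p.natDegree := hpi.natDegree_pos
      have hpn : p ∣ X ^ n - 1 := (Dvd.intro q hq.symm).trans hdvd
      have hqn : q ∣ X ^ n - 1 := (Dvd.intro_left p hq.symm).trans hdvd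
      rw [hq, mul_coeff_zero, mul_pow, ih q.natDegree (by omega) q rfl hqm hqn, mul_one]
      rcases hK p hp hpi hpn with ⟨a, ha⟩ | ⟨d, hd, hpd'⟩
      · have ha1 : a ^ n = 1 := root_pow (by rw [← ha]; exact hpn)
        rw [ha, coeff_sub, coeff_X_zero, coeff_C_zero, zero_sub, pow_mul, neg_sq, ← pow_mul,
          mul_comm, pow_mul, ha1, one_pow]
      · rcases Nat.lt_or_ge 1 d with h1 | h1
        · rw [hpd', cyclotomic_coeff_zero K h1, one_pow]
        · have hd0 : 0 < d := Nat.pos_of_dvd_of_pos hd hn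
          have hd1 : d = 1 := by omega
          rw [hpd', hd1, cyclotomic_one]
          simp [pow_mul]

end cyc

end Pool.Agent.Y775.CD
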