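import Pool.Agent.Y775.CD.Top
import Pool.Agent.Y775.CC.Unram
set_option autoImplicit false

/-!
Valuations of the factors of `F(x) - G(y)`.
-/

namespace Pool.Agent.Y775.CD

open scoped WithZero

open Polynomial

variable {K L : Type*} [Field K] [Field L] (v : Valuation L ℤᵐ⁰) (c : K →+* L)

section small

variable {v c}

theorem val_eval₂_le {q : K[X]} (hq : ∀ j, v (c (q.coeff j)) ≤ 1) {m : ℕ} (hm : q.natDegree ≤ m)
    {y : L} {ρ : ℤᵐ⁰} (h1 : 1 ≤ ρ) (hy : v y ≤ ρ) : v (q.eval₂ c y) ≤ ρ ^ m := by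
  rw [Polynomial.eval₂_eq_sum_range]
  refine Valuation.map_sum_le v fun j hj => ?_
  have hj' : j ≤ m := (Nat.lt_succ_iff.1 (Finset.mem_range.1 hj)).trans hm
  rw [map_mul, map_pow]
  calc v (c (q.coeff j)) * v y ^ j ≤ 1 * ρ ^ j := mul_le_mul' (hq j) (pow_le_pow_left' hy j)
    _ = ρ ^ j := one_mul _
    _ ≤ ρ ^ m := pow_le_pow_right' h1 hj'

/-- Integral coefficients. -/
def Int2 (v : Valuation L ℤᵐ⁰) (c : K →+* L) (P : K[X][X]) : Prop :=
  ∀ i j, v (c ((P.coeff i).coeff j)) ≤ 1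

theorem val_ev2_le_one {P : K[X][X]} (hP : Int2 v c P) {x y : L} (hx : v x ≤ 1) (hy : v y ≤ 1) :
    v (ev2 c x y P) ≤ 1 := by
  rw [ev2_apply, Polynomial.eval₂_eq_sum_range]
  refine Valuation.map_sum_le v fun i _ => ?_
  rw [map_mul, map_pow]
  have h1 : v ((P.coeff i).eval₂ c y) ≤ 1 := by
    have := val_eval₂_le (hP i) (le_refl (P.coeff i).natDegree) (le_refl (1 : ℤᵐ⁰)) hy
    rwa [one_pow] at this
  exact mul_le_one' h1 (pow_le_one' hx i)

theorem ev2_eq_sum {P : K[X][X]} {k : ℕ} (hk : P.natDegree = k) (hm : P.Monic) (x y : L) :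
    ev2 c x y P = x ^ k + ∑ i ∈ Finset.range k, (P.coeff i).eval₂ c y * x ^ i := by
  subst hk
  rw [ev2_apply, Polynomial.eval₂_eq_sum_range, Finset.sum_range_succ, hm.coeff_natDegree, map_one,
    one_mul, add_comm]
  rfl

/-- `x` dominates -/
theorem val_div_of_lt {P : K[X][X]} {k : ℕ} {g : K[X]} (h : TopForm P k g) (hP : Int2 v c P)
    {x y : L} (hx : 1 < v x) (hxy : v y < v x) : v (ev2 c x y P / x ^ k - 1) < 1 := by
  have hx0 : x ≠ 0 := by
    rintro rfl
    rw [map_zero] at hx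
    exact absurd hx (not_lt.2 zero_le_one)
  have hpow : x ^ k ≠ 0 := pow_ne_zero _ hx0
  have e : ev2 c x y P / x ^ k - 1 = ∑ i ∈ Finset.range k,
      (P.coeff i).eval₂ c y * x ^ i / x ^ k := by
    rw [ev2_eq_sum h.natDegree_eq h.monic, add_div, div_self hpow, add_sub_cancel_left,
      Finset.sum_div]
  rw [e]
  refine Valuation.map_sum_lt v one_ne_zero fun i hi => ?_
  have hi' : i < k := Finset.mem_range.1 hi
  have h3 : x ^ k = x ^ i * x ^ (k - i) := by
    rw [← pow_add]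
    congr 1
    omega
  have h4 : (P.coeff i).eval₂ c y * x ^ i / x ^ k = (P.coeff i).eval₂ c y / x ^ (k - i) := by
    rw [h3]
    field_simp
  have hvx0 : v x ^ (k - i) ≠ 0 := (pow_ne_zero _ (zero_lt_one.trans hx).ne')
  have h5 : v ((P.coeff i).eval₂ c y) ≤ (max 1 (v y)) ^ (k - i) :=
    val_eval₂_le (hP i) (natDegree_le_of_topForm h hi'.le) (le_max_left _ _) (le_max_right _ _)
  rw [h4, map_div₀, map_pow, div_lt_one₀ (zero_lt_iff.2 hvx0)]
  refine h5.trans_lt ?_
  exact pow_lt_pow_left₀ (max_lt hx hxy) zero_le (by omega)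

theorem ev2_Phi (P : K[X][X]) (r y : L) : ev2 c (r * y) y P = ev2 c y r (Phi P) := by
  have e : (ev2 c (r * y) y : K[X][X] →+* L) = (ev2 c y r).comp Phi := by
    refine Polynomial.ringHom_ext (fun q => ?_) ?_
    · rw [RingHom.comp_apply, Phi_C, ev2_apply, ev2_apply, eval₂_C, eval₂_map]
      have e1 : (Polynomial.eval₂RingHom c r).comp C = c := by
        ext a
        simp
      rw [e1]
      rfl
    · rw [RingHom.comp_apply, Phi_X, ev2_apply, ev2_apply, eval₂_X, eval₂_mul, eval₂_C, eval₂_X,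
        coe_eval₂RingHom, eval₂_X]
  rw [e]
  rfl

/-- `y` dominates or `x / y` is a unit -/
theorem val_div_of_le {P : K[X][X]} {k : ℕ} {g : K[X]} (h : TopForm P k g) (hP : Int2 v c P)
    {x y : L} (hy : 1 < v y) (hxy : v x ≤ v y) :
    v (ev2 c x y P / y ^ k - g.eval₂ c (x / y)) < 1 := by
  have hy0 : y ≠ 0 := by
    rintro rfl
    rw [map_zero] at hy
    exact absurd hy (not_lt.2 zero_le_one)
  have hpow : y ^ k ≠ 0 := pow_ne_zero _ hy0
  set r : L := x / y with hr
  have hx : x = r * y := by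
    rw [hr]
    field_simp
  have hrv : v r ≤ 1 := by
    rw [hr, map_div₀]
    exact div_le_one_of_le₀ hxy zero_le
  have e : ev2 c x y P / y ^ k - g.eval₂ c r = ∑ i ∈ Finset.range k,
      ((Phi P).coeff i).eval₂ c r * y ^ i / y ^ k := by
    have e1 : ev2 c y r (Phi P) = ∑ i ∈ Finset.range (k + 1),
        ((Phi P).coeff i).eval₂ c r * y ^ i := by
      rw [ev2_apply, Polynomial.eval₂_eq_sum_range' _ (Nat.lt_succ_of_le h.natDegree_le)]
      rfl
    rw [hx, ev2_Phi, e1, Finset.sum_range_succ, h.top, add_div, mul_div_cancel_right₀ _ hpow,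
      add_sub_cancel_right, Finset.sum_div]
  rw [e]
  refine Valuation.map_sum_lt v one_ne_zero fun i hi => ?_
  have hi' : i < k := Finset.mem_range.1 hi
  have h3 : y ^ k = y ^ i * y ^ (k - i) := by
    rw [← pow_add]
    congr 1
    omega
  have h4 : ((Phi P).coeff i).eval₂ c r * y ^ i / y ^ k =
      ((Phi P).coeff i).eval₂ c r / y ^ (k - i) := by
    rw [h3]
    field_simp
  have hvy0 : v y ^ (k - i) ≠ 0 := (pow_ne_zero _ (zero_lt_one.trans hy).ne')
  have h5 : v (((Phi P).coeff i).eval₂ c r) ≤ 1 := by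
    have := val_eval₂_le (v := v) (c := c) (q := (Phi P).coeff i) (fun j => by
      rw [Phi_coeff_coeff]
      split_ifs with hji
      · exact hP _ _
      · rw [map_zero, map_zero]
        exact zero_le_one) (le_refl _) (le_refl (1 : ℤᵐ⁰)) hrv
    rwa [one_pow] at this
  rw [h4, map_div₀, map_pow, div_lt_one₀ (zero_lt_iff.2 hvy0)]
  exact h5.trans_lt (one_lt_pow₀ hy (by omega))

end small

end Pool.Agent.Y775.CD
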